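import Pool.Agent.H60.ALT.Nzd

/-!
# Natural labels of a list of windows over one label of the family

`NzP`: a pair of natural labels over one label, both explicit; `nzp_dif`: their difference is a
closed polynomial of the chain. `NzM`: a list of windows. `nzm_ex`, `nzm_rec`: existence on a part,
and on all events of a subclass with the same record.
-/

set_option autoImplicit false

namespace Pool.V0N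

open Finset Real MvPolynomial
open Pool.Agent.H49.Ent Pool.Agent.H32.Dense Pool.STK Pool.KA Pool.KSAT Pool.K2S Pool.PB Pool.S6C
  Pool.GEN Pool.RCD Pool.LA91 Pool.OWN68 Pool.PKG Pool.ALT
open Pool.UNJ (ceI)
open Pool.GRD (LbP)
open Pool.V0F (her_extc)

variable {m : ℕ}

/-- **A pair of natural labels** of the windows `v` and `a` over the same label of the family. -/
def NzP (Ψ : Fml m) (c : ℕ → Fin m) (r₀ : ℕ) (κ : Fin m) (D : ℕ)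
    (w v p₁ p₂ e u p a pa₁ pa₂ ea ua pa : ℝ) (J : ℕ) (F : Fam m J) (A : F.Ω → Prop)
    (V : Type) (z : PtT F → V) (z' : LnT F → V) (G : V → MvPolynomial (Option (Fin m)) ℝ)
    (Va : Type) (za : PtT F → Va) (za' : LnT F → Va)
    (Ga : Va → MvPolynomial (Option (Fin m)) ℝ) : Prop :=
  ∃ (V₀ V₁ V₂ : Type) (z₀ : PtT F → V₀) (z₀' : LnT F → V₀)
    (G₀ : V₀ → MvPolynomial (Option (Fin m)) ℝ) (P₁ : ℕ) (z₁ : PtT F → V₁) (z₁' : LnT F → V₁)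
    (G₁ : V₁ → MvPolynomial (Option (Fin m)) ℝ) (P₂ : ℕ) (z₂ : PtT F → V₂)
    (z₂' : LnT F → V₂) (H : V₂ → MvPolynomial (Option (Fin m)) ℝ)
    (f : V → V₀ × (V₁ × V₂)) (Y₁ Y₂ : Type) (Q₁ : ℕ) (y₁ : PtT F → Y₁) (y₁' : LnT F → Y₁)
    (B₁ : Y₁ → MvPolynomial (Option (Fin m)) ℝ) (Q₂ : ℕ) (y₂ : PtT F → Y₂)
    (y₂' : LnT F → Y₂) (B₂ : Y₂ → MvPolynomial (Option (Fin m)) ℝ)
    (fa : Va → V₀ × (Y₁ × Y₂)), Ψ J F A V₀ z₀ z₀' G₀ ∧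
      NzL c r₀ κ D D D w v p₁ p₂ e u p F A z z' G z₀' G₀ P₁ z₁ z₁' G₁ P₂ z₂ z₂' H f ∧
      NzL c r₀ κ D D D w a pa₁ pa₂ ea ua pa F A za za' Ga z₀' G₀ Q₁ y₁ y₁' B₁ Q₂ y₂ y₂' B₂ fa

section Pair

variable {Ψ : Fml m} {c : ℕ → Fin m} {r₀ : ℕ} {κ : Fin m} {D : ℕ}
  {w v p₁ p₂ e u p a pa₁ pa₂ ea ua pa : ℝ} {J : ℕ} {F : Fam m J} {A : F.Ω → Prop}
  {V : Type} {z : PtT F → V} {z' : LnT F → V} {G : V → MvPolynomial (Option (Fin m)) ℝ}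
  {Va : Type} {za : PtT F → Va} {za' : LnT F → Va}
  {Ga : Va → MvPolynomial (Option (Fin m)) ℝ}

theorem NzP.nzq (h : NzP Ψ c r₀ κ D w v p₁ p₂ e u p a pa₁ pa₂ ea ua pa J F A V z z' G Va za za'
    Ga) : NzQ Ψ c r₀ κ D D D D w v p₁ p₂ e u p a pa₁ pa₂ ea ua pa J F A V z z' G := by
  obtain ⟨V₀, V₁, V₂, z₀, z₀', G₀, P₁, z₁, z₁', G₁, P₂, z₂, z₂', H, f, Y₁, Y₂, Q₁, y₁, y₁', B₁, Q₂,
    y₂, y₂', B₂, fa, a1, a2, a3⟩ := h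
  exact ⟨V₀, V₁, V₂, z₀, z₀', G₀, P₁, z₁, z₁', G₁, P₂, z₂, z₂', H, f, a1, a2, Va, Y₁, Y₂, za, za',
    Ga, Q₁, y₁, y₁', B₁, Q₂, y₂, y₂', B₂, fa, a3⟩

theorem NzP.nzf1 (h : NzP Ψ c r₀ κ D w v p₁ p₂ e u p a pa₁ pa₂ ea ua pa J F A V z z' G Va za za'
    Ga) : NzF Ψ c r₀ κ D D D w v p₁ p₂ e u p J F A V z z' G := h.nzq.nzf

theorem NzP.nzf2 (h : NzP Ψ c r₀ κ D w v p₁ p₂ e u p a pa₁ pa₂ ea ua pa J F A V z z' G Va za za'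
    Ga) : NzF Ψ c r₀ κ D D D w a pa₁ pa₂ ea ua pa J F A Va za za' Ga := by
  obtain ⟨V₀, V₁, V₂, z₀, z₀', G₀, P₁, z₁, z₁', G₁, P₂, z₂, z₂', H, f, Y₁, Y₂, Q₁, y₁, y₁', B₁, Q₂,
    y₂, y₂', B₂, fa, a1, a2, a3⟩ := h
  exact ⟨V₀, Y₁, Y₂, z₀, z₀', G₀, Q₁, y₁, y₁', B₁, Q₂, y₂, y₂', B₂, fa, a1, a3⟩

theorem NzP.hs (hΨs : ∀ (J : ℕ) (F : Fam m J) (A B : F.Ω → Prop) (V : Type)
      (z : PtT F → V) (z' : LnT F → V) (G : V → MvPolynomial (Option (Fin m)) ℝ), Sub B A →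
      Ψ J F A V z z' G → Ψ J F B V z z' G) {B : F.Ω → Prop} (hB : Sub B A)
    (h : NzP Ψ c r₀ κ D w v p₁ p₂ e u p a pa₁ pa₂ ea ua pa J F A V z z' G Va za za' Ga) :
    NzP Ψ c r₀ κ D w v p₁ p₂ e u p a pa₁ pa₂ ea ua pa J F B V z z' G Va za za' Ga := by
  obtain ⟨V₀, V₁, V₂, z₀, z₀', G₀, P₁, z₁, z₁', G₁, P₂, z₂, z₂', H, f, Y₁, Y₂, Q₁, y₁, y₁', B₁, Q₂,
    y₂, y₂', B₂, fa, a1, a2, a3⟩ := h
  exact ⟨V₀, V₁, V₂, z₀, z₀', G₀, P₁, z₁, z₁', G₁, P₂, z₂, z₂', H, f, Y₁, Y₂, Q₁, y₁, y₁', B₁, Q₂,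
    y₂, y₂', B₂, fa, hΨs J F A B V₀ z₀ z₀' G₀ hB a1, a2.sub hB, a3.sub hB⟩

/-- **The difference of the two labels** is a closed polynomial of the chain. -/
theorem nzp_dif
    (hΨd : ∀ (J : ℕ) (F : Fam m J) (A : F.Ω → Prop) (V : Type) (z : PtT F → V) (z' : LnT F → V)
      (G : V → MvPolynomial (Option (Fin m)) ℝ), Ψ J F A V z z' G →
      (∀ y, (G y).totalDegree ≤ D) ∧ (∀ y, DpI ((range (r₀ + 1)).image c) (G y)) ∧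
      ∀ ω, A ω → z (ptr F J ω) = z' (slam F ⌊w * J⌋₊ ω))
    (hwv : w ≤ v) (hva : v ≤ a) (ha : a ≤ 1)
    (hG : NzP Ψ c r₀ κ D w v p₁ p₂ e u p a pa₁ pa₂ ea ua pa J F A V z z' G Va za za' Ga) :
    ∃ (Vd : Type) (zd : PtT F → Vd) (zd' : LnT F → Vd)
      (Da : Vd → MvPolynomial (Option (Fin m)) ℝ),
      (∀ y, (Da y).totalDegree ≤ max 1 (D * max 1 D)) ∧
      (∀ y, DpI ((range r₀).image c) (Da y)) ∧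
      (∀ ω, A ω → zd (ptr F J ω) = zd' (slam F ⌊a * J⌋₊ ω)) ∧
      ∀ ω, Da (zd' (slam F ⌊a * J⌋₊ ω)) =
        Ga (za' (slam F ⌊a * J⌋₊ ω)) - G (z' (slam F ⌊v * J⌋₊ ω)) := by
  obtain ⟨Kd, hKd⟩ : ∃ Kd : ℕ, Kd = max 1 (D * max 1 D) := ⟨_, rfl⟩
  rw [← hKd]
  obtain ⟨V₀, V₁, V₂, z₀, z₀', G₀, P₁, z₁, z₁', G₁, P₂, z₂, z₂', H, f₁, Y₁, Y₂, Q₁, y₁, y₁', B₁, Q₂,
    y₂, y₂', B₂, fa, a1, a2, a3⟩ := hG
  obtain ⟨hGd, hGp, hGc⟩ := hΨd J F A V₀ z₀ z₀' G₀ a1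
  have hv : v ≤ 1 := hva.trans ha
  obtain ⟨f1, f2⟩ := floorw hwv hv J
  obtain ⟨g1, g2⟩ := floorw (hwv.trans hva) ha J
  obtain ⟨k1, k2⟩ := floorw hva ha J
  obtain ⟨Φ, hΦ⟩ : ∃ Φ : V₀ × ((Y₁ × Y₂) × (V₁ × V₂)) → MvPolynomial (Option (Fin m)) ℝ,
    Φ = fun x => sbu (c r₀) (B₂ x.2.1.2) (B₁ x.2.1.1 - G₀ x.1) -
      sbu (c r₀) (H x.2.2.2) (G₁ x.2.2.1 - G₀ x.1) := ⟨_, rfl⟩
  obtain ⟨zd, hzd⟩ : ∃ zd : PtT F → V₀ × ((Y₁ × Y₂) × (V₁ × V₂)), zd = fun x =>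
    (z₀ x, ((y₁ x, y₂ x), (z₁ x, z₂ x))) := ⟨_, rfl⟩
  obtain ⟨zd', hzd'⟩ : ∃ zd' : LnT F → V₀ × ((Y₁ × Y₂) × (V₁ × V₂)), zd' = fun x =>
    (wz z₀' ⌊w * J⌋₊ ⌊a * J⌋₊ x, ((y₁' x, y₂' x), (wz z₁' ⌊v * J⌋₊ ⌊a * J⌋₊ x,
      wz z₂' ⌊v * J⌋₊ ⌊a * J⌋₊ x))) := ⟨_, rfl⟩
  have hcode : ∀ ω, zd' (slam F ⌊a * J⌋₊ ω) = (z₀' (slam F ⌊w * J⌋₊ ω),
      ((y₁' (slam F ⌊a * J⌋₊ ω), y₂' (slam F ⌊a * J⌋₊ ω)),
        (z₁' (slam F ⌊v * J⌋₊ ω), z₂' (slam F ⌊v * J⌋₊ ω)))) := by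
    intro ω
    rw [hzd']
    dsimp only
    rw [wz_slam z₀' g1 g2, wz_slam z₁' k1 k2, wz_slam z₂' k1 k2]
  have hdeg : ∀ x, (Φ x).totalDegree ≤ Kd := by
    intro x
    have b1 : ∀ {D' E : MvPolynomial (Option (Fin m)) ℝ}, E.totalDegree ≤ max 1 D →
        D'.totalDegree ≤ D → (sbu (c r₀) E D').totalDegree ≤ Kd := by
      intro D' E hE hD
      refine (sbu_deg (c r₀) hE hD).trans ?_
      rw [max_eq_right (le_max_left 1 D), hKd]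
      exact le_max_right _ _
    rw [hΦ]
    refine (totalDegree_sub _ _).trans (max_le (b1 ?_ ?_) (b1 ?_ ?_))
    · exact (a3.l2.deg _).trans (le_max_right _ _)
    · exact (totalDegree_sub _ _).trans (max_le (a3.l1.deg _) (hGd _))
    · exact (a2.l2.deg _).trans (le_max_right _ _)
    · exact (totalDegree_sub _ _).trans (max_le (a2.l1.deg _) (hGd _))
  have hdep : ∀ x, DpI ((range r₀).image c) (Φ x) := by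
    intro x
    rw [hΦ]
    exact DpI.sub (sbu_dep (DpI.sub (a3.l1.dep _) (hGp _)) (a3.l2.dep _))
      (sbu_dep (DpI.sub (a2.l1.dep _) (hGp _)) (a2.l2.dep _))
  refine ⟨_, zd, zd', Φ, hdeg, hdep, fun ω hω => ?_, fun ω => ?_⟩
  · rw [hcode, hzd]
    dsimp only
    rw [hGc ω hω, a3.l1.cls ω hω, a3.l2.cls ω hω, a2.l1.cls ω hω, a2.l2.cls ω hω]
  · rw [hcode, a3.pol, a2.pol, a3.cod, a2.cod, wz_slam z₀' g1 g2, wz_slam z₀' f1 f2, hΦ]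
    unfold nzG
    ring

end Pair

/-- **Natural labels of a list of windows** over the same label of the family. -/
def NzM (Ψ : Fml m) (c : ℕ → Fin m) (r₀ : ℕ) (κ : Fin m) (D : ℕ) (w : ℝ) (n : ℕ)
    (v p₁ p₂ e u p : ℕ → ℝ) (J : ℕ) (F : Fam m J) (A : F.Ω → Prop) (V : ℕ → Type)
    (z : ∀ i, PtT F → V i) (z' : ∀ i, LnT F → V i)
    (G : ∀ i, V i → MvPolynomial (Option (Fin m)) ℝ) : Prop :=
  ∃ (V₀ : Type) (z₀ : PtT F → V₀) (z₀' : LnT F → V₀)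
    (G₀ : V₀ → MvPolynomial (Option (Fin m)) ℝ), Ψ J F A V₀ z₀ z₀' G₀ ∧
    ∀ i < n, ∃ (V₁ V₂ : Type) (P₁ : ℕ) (z₁ : PtT F → V₁) (z₁' : LnT F → V₁)
      (G₁ : V₁ → MvPolynomial (Option (Fin m)) ℝ) (P₂ : ℕ) (z₂ : PtT F → V₂)
      (z₂' : LnT F → V₂) (H : V₂ → MvPolynomial (Option (Fin m)) ℝ)
      (f : V i → V₀ × (V₁ × V₂)),
      NzL c r₀ κ D D D w (v i) (p₁ i) (p₂ i) (e i) (u i) (p i) F A (z i) (z' i) (G i) z₀' G₀ P₁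
        z₁ z₁' G₁ P₂ z₂ z₂' H f

section List

variable {Ψ : Fml m} {c : ℕ → Fin m} {r₀ : ℕ} {κ : Fin m} {D : ℕ} {w : ℝ} {n : ℕ}
  {v p₁ p₂ e u p : ℕ → ℝ}

theorem NzM.hs (hΨs : ∀ (J : ℕ) (F : Fam m J) (A B : F.Ω → Prop) (V : Type)
      (z : PtT F → V) (z' : LnT F → V) (G : V → MvPolynomial (Option (Fin m)) ℝ), Sub B A →
      Ψ J F A V z z' G → Ψ J F B V z z' G) {J : ℕ} {F : Fam m J} {A B : F.Ω → Prop}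
    {V : ℕ → Type} {z : ∀ i, PtT F → V i} {z' : ∀ i, LnT F → V i}
    {G : ∀ i, V i → MvPolynomial (Option (Fin m)) ℝ} (hB : Sub B A)
    (h : NzM Ψ c r₀ κ D w n v p₁ p₂ e u p J F A V z z' G) :
    NzM Ψ c r₀ κ D w n v p₁ p₂ e u p J F B V z z' G := by
  obtain ⟨V₀, z₀, z₀', G₀, h1, h2⟩ := h
  refine ⟨V₀, z₀, z₀', G₀, hΨs J F A B V₀ z₀ z₀' G₀ hB h1, fun i hi => ?_⟩
  obtain ⟨V₁, V₂, P₁, z₁, z₁', G₁, P₂, z₂, z₂', H, f, h3⟩ := h2 i hi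
  exact ⟨V₁, V₂, P₁, z₁, z₁', G₁, P₂, z₂, z₂', H, f, h3.sub hB⟩

/-- The pairs. -/
theorem NzM.nzp {J : ℕ} {F : Fam m J} {A : F.Ω → Prop}
    {V : ℕ → Type} {z : ∀ i, PtT F → V i} {z' : ∀ i, LnT F → V i}
    {G : ∀ i, V i → MvPolynomial (Option (Fin m)) ℝ}
    (h : NzM Ψ c r₀ κ D w n v p₁ p₂ e u p J F A V z z' G) {i j : ℕ} (hi : i < n) (hj : j < n) :
    NzP Ψ c r₀ κ D w (v i) (p₁ i) (p₂ i) (e i) (u i) (p i) (v j) (p₁ j) (p₂ j) (e j) (u j) (p j)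
      J F A (V i) (z i) (z' i) (G i) (V j) (z j) (z' j) (G j) := by
  obtain ⟨V₀, z₀, z₀', G₀, h1, h2⟩ := h
  obtain ⟨V₁, V₂, P₁, z₁, z₁', G₁, P₂, z₂, z₂', H, f, h3⟩ := h2 i hi
  obtain ⟨Y₁, Y₂, Q₁, y₁, y₁', B₁, Q₂, y₂, y₂', B₂, fa, h4⟩ := h2 j hj
  exact ⟨V₀, V₁, V₂, z₀, z₀', G₀, P₁, z₁, z₁', G₁, P₂, z₂, z₂', H, f, Y₁, Y₂, Q₁, y₁, y₁', B₁, Q₂,
    y₂, y₂', B₂, fa, h1, h3, h4⟩

theorem NzM.nzf {J : ℕ} {F : Fam m J} {A : F.Ω → Prop}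
    {V : ℕ → Type} {z : ∀ i, PtT F → V i} {z' : ∀ i, LnT F → V i}
    {G : ∀ i, V i → MvPolynomial (Option (Fin m)) ℝ}
    (h : NzM Ψ c r₀ κ D w n v p₁ p₂ e u p J F A V z z' G) {i : ℕ} (hi : i < n) :
    NzF Ψ c r₀ κ D D D w (v i) (p₁ i) (p₂ i) (e i) (u i) (p i) J F A (V i) (z i) (z' i) (G i) :=
  (h.nzp hi hi).nzf1

/-- **The labels exist on a part**, over every label of the family. -/
theorem nzm_part {S : PCl m} : ∀ (n : ℕ),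
    (∀ i < n, NzO S Ψ c r₀ κ D D D w (v i) (p₁ i) (p₂ i) (e i) (u i) (p i)) →
    (∀ i < n, Bas S (fun J F A => ∃ (P₁ : ℕ) (V₁ : Type) (z₁ : PtT F → V₁) (z₁' : LnT F → V₁)
      (G₁ : V₁ → MvPolynomial (Option (Fin m)) ℝ),
      LbP F ((range (r₀ + 1)).image c) κ D J ⌊v i * J⌋₊ P₁ A z₁ z₁' G₁ ∧ p₁ i * J ≤ P₁)) →
    (∀ i < n, Bas S (fun J F A => ∃ (P₂ : ℕ) (V₂ : Type) (z₂ : PtT F → V₂) (z₂' : LnT F → V₂)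
      (H : V₂ → MvPolynomial (Option (Fin m)) ℝ),
      LbP F ((range r₀).image c) (c r₀) D J ⌊v i * J⌋₊ P₂ A z₂ z₂' H ∧ p₂ i * J ≤ P₂)) →
    Bas S (fun J F A => ∀ (V₀ : Type) (z₀ : PtT F → V₀) (z₀' : LnT F → V₀)
      (G₀ : V₀ → MvPolynomial (Option (Fin m)) ℝ), Ψ J F A V₀ z₀ z₀' G₀ →
      ∃ B : F.Ω → Prop, Sub B A ∧ Pe F.p A ≤ 8 ^ n * Pe F.p B ∧
        ∀ i < n, ∃ (V : Type) (z : PtT F → V) (z' : LnT F → V)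
          (G : V → MvPolynomial (Option (Fin m)) ℝ) (V₁ V₂ : Type) (P₁ : ℕ) (z₁ : PtT F → V₁)
          (z₁' : LnT F → V₁)
          (G₁ : V₁ → MvPolynomial (Option (Fin m)) ℝ) (P₂ : ℕ) (z₂ : PtT F → V₂)
          (z₂' : LnT F → V₂) (H : V₂ → MvPolynomial (Option (Fin m)) ℝ)
          (f : V → V₀ × (V₁ × V₂)),
          NzL c r₀ κ D D D w (v i) (p₁ i) (p₂ i) (e i) (u i) (p i) F B z z' G z₀' G₀ P₁
            z₁ z₁' G₁ P₂ z₂ z₂' H f)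
  | 0, _, _, _ => ⟨1, one_pos, 0, fun _ _ _ A _ _ _ _ _ _ =>
      ⟨A, fun _ h => h, by rw [pow_zero, one_mul], fun i hi => absurd hi (Nat.not_lt_zero i)⟩⟩
  | n + 1, h1, h2, h3 => by
    have IH := nzm_part n (fun i hi => h1 i (by omega)) (fun i hi => h2 i (by omega))
      (fun i hi => h3 i (by omega))
    refine Bas.mono 0 ((IH.and (h1 n (by omega) (1 / 8 ^ n) (by positivity))).and
      ((h2 n (by omega)).and (h3 n (by omega)))) ?_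
    rintro J - F A ⟨⟨K1, K2⟩, ⟨P₁, V₁, z₁, z₁', G₁, hG₁, hP₁⟩, P₂, V₂, z₂, z₂', H, hH, hP₂⟩ V₀ z₀
      z₀' G₀ hΨ
    obtain ⟨B, b1, b2, b3⟩ := K1 V₀ z₀ z₀' G₀ hΨ
    obtain ⟨B', c1, c2, c3⟩ := K2 V₀ z₀ z₀' G₀ hΨ P₁ V₁ z₁ z₁' G₁ hG₁ hP₁ P₂ V₂ z₂ z₂' H hH hP₂ B
      b1 (by rw [one_div_one_div]; exact b2)
    refine ⟨B', fun ω hω => b1 ω (c1 ω hω), ?_, fun i hi => ?_⟩
    · have : (8 : ℝ) ^ n * Pe F.p B ≤ 8 ^ n * (8 * Pe F.p B') :=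
        mul_le_mul_of_nonneg_left c2 (by positivity)
      rw [pow_succ]
      linarith
    · rcases Nat.lt_succ_iff_lt_or_eq.1 hi with hi' | rfl
      · obtain ⟨V, z, z', G, U₁, U₂, Q₁, y₁, y₁', B₁, Q₂, y₂, y₂', B₂, f, k⟩ := b3 i hi'
        exact ⟨V, z, z', G, U₁, U₂, Q₁, y₁, y₁', B₁, Q₂, y₂, y₂', B₂, f, k.sub c1⟩
      · have hB'A : Sub B' A := fun ω hω => b1 ω (c1 ω hω)
        exact ⟨_, _, _, _, V₁, V₂, P₁, z₁, z₁', G₁, P₂, z₂, z₂', H, id, hG₁.sub hB'A, hP₁,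
          hH.sub hB'A, hP₂, fun _ => rfl, fun _ => rfl, c3⟩

/-- **The labels exist on a part.** -/
theorem nzm_ex {S : PCl m} (n : ℕ)
    (h1 : ∀ i < n, NzO S Ψ c r₀ κ D D D w (v i) (p₁ i) (p₂ i) (e i) (u i) (p i))
    (h2 : ∀ i < n, Bas S (fun J F A => ∃ (P₁ : ℕ) (V₁ : Type) (z₁ : PtT F → V₁)
      (z₁' : LnT F → V₁) (G₁ : V₁ → MvPolynomial (Option (Fin m)) ℝ),
      LbP F ((range (r₀ + 1)).image c) κ D J ⌊v i * J⌋₊ P₁ A z₁ z₁' G₁ ∧ p₁ i * J ≤ P₁))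
    (h3 : ∀ i < n, Bas S (fun J F A => ∃ (P₂ : ℕ) (V₂ : Type) (z₂ : PtT F → V₂)
      (z₂' : LnT F → V₂) (H : V₂ → MvPolynomial (Option (Fin m)) ℝ),
      LbP F ((range r₀).image c) (c r₀) D J ⌊v i * J⌋₊ P₂ A z₂ z₂' H ∧ p₂ i * J ≤ P₂))
    (hΨs : ∀ (J : ℕ) (F : Fam m J) (A B : F.Ω → Prop) (V : Type)
      (z : PtT F → V) (z' : LnT F → V) (G : V → MvPolynomial (Option (Fin m)) ℝ), Sub B A →
      Ψ J F A V z z' G → Ψ J F B V z z' G)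
    (hex : Bas S (fun J F A => ∃ (V : Type) (z : PtT F → V) (z' : LnT F → V)
      (G : V → MvPolynomial (Option (Fin m)) ℝ), Ψ J F A V z z' G)) :
    Bas S (fun J F A => ∃ B : F.Ω → Prop, Sub B A ∧ Pe F.p A ≤ 8 ^ n * Pe F.p B ∧
      ∃ (V : ℕ → Type) (z : ∀ i, PtT F → V i) (z' : ∀ i, LnT F → V i)
        (G : ∀ i, V i → MvPolynomial (Option (Fin m)) ℝ),
        NzM Ψ c r₀ κ D w n v p₁ p₂ e u p J F B V z z' G) := by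
  classical
  refine Bas.mono 0 ((nzm_part n h1 h2 h3).and hex) ?_
  rintro J - F A ⟨K1, V₀, z₀, z₀', G₀, hΨ⟩
  obtain ⟨B, b1, b2, b3⟩ := K1 V₀ z₀ z₀' G₀ hΨ
  have key : ∀ i, ∃ (V : Type) (z : PtT F → V) (z' : LnT F → V)
      (G : V → MvPolynomial (Option (Fin m)) ℝ), i < n → ∃ (V₁ V₂ : Type) (P₁ : ℕ)
      (z₁ : PtT F → V₁) (z₁' : LnT F → V₁)
      (G₁ : V₁ → MvPolynomial (Option (Fin m)) ℝ) (P₂ : ℕ) (z₂ : PtT F → V₂)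
      (z₂' : LnT F → V₂) (H : V₂ → MvPolynomial (Option (Fin m)) ℝ)
      (f : V → V₀ × (V₁ × V₂)),
      NzL c r₀ κ D D D w (v i) (p₁ i) (p₂ i) (e i) (u i) (p i) F B z z' G z₀' G₀ P₁
        z₁ z₁' G₁ P₂ z₂ z₂' H f := by
    intro i
    by_cases hi : i < n
    · obtain ⟨V, z, z', G, h⟩ := b3 i hi
      exact ⟨V, z, z', G, fun _ => h⟩
    · exact ⟨Unit, fun _ => (), fun _ => (), fun _ => 0, fun h => absurd h hi⟩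
  choose V z z' G h using key
  exact ⟨B, b1, b2, V, z, z', G, V₀, z₀, z₀', G₀, hΨs J F A B V₀ z₀ z₀' G₀ b1 hΨ, h⟩

/-- **The labels on all events** of a subclass with the same record. -/
theorem nzm_rec {S : PCl m} {al : ℝ} {g₀ : ℝ → ℝ} {P : List (Fin m) × Fin m → ℝ → ℝ → ℝ}
    {θ : ℝ} {P₂ : ℕ → List (Fin m) × Fin m → ℝ → ℝ → ℝ} {θ₂ Eb e₂ : ℕ → ℝ}
    {Pt : ℝ → ℝ → ℝ} {r : ℝ → ℝ} {hr K₀ g : ℝ} {L T : ℕ → ℝ → ℝ → ℝ}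
    {Sl : ℕ → ℝ} {κg : ℕ → Kg} {Gs : Set ℝ} {S₀ N : ℕ} {As Vs : ℕ → ℝ} {S₂ N' : ℕ} {V' : ℕ → ℝ}
    {K ε q t : ℝ}
    (Rc : RecG S al g₀ P θ P₂ θ₂ Eb e₂ c Pt r hr K₀ g L T Sl κg Gs S₀ N As Vs S₂ N' V' K ε q t)
    {pq₂ : ℕ → ℝ}
    (h1 : ∀ i < n, NzO S Ψ c r₀ κ D D D w (v i) (p₁ i) (pq₂ i) (e i) (u i) (p i))
    (h2 : ∀ i < n, Bas S (fun J F A => ∃ (P₁ : ℕ) (V₁ : Type) (z₁ : PtT F → V₁)
      (z₁' : LnT F → V₁) (G₁ : V₁ → MvPolynomial (Option (Fin m)) ℝ),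
      LbP F ((range (r₀ + 1)).image c) κ D J ⌊v i * J⌋₊ P₁ A z₁ z₁' G₁ ∧ p₁ i * J ≤ P₁))
    (h3 : ∀ i < n, Bas S (fun J F A => ∃ (P₂ : ℕ) (V₂ : Type) (z₂ : PtT F → V₂)
      (z₂' : LnT F → V₂) (H : V₂ → MvPolynomial (Option (Fin m)) ℝ),
      LbP F ((range r₀).image c) (c r₀) D J ⌊v i * J⌋₊ P₂ A z₂ z₂' H ∧ pq₂ i * J ≤ P₂))
    (hΨs : ∀ (J : ℕ) (F : Fam m J) (A B : F.Ω → Prop) (V : Type)
      (z : PtT F → V) (z' : LnT F → V) (G : V → MvPolynomial (Option (Fin m)) ℝ), Sub B A →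
      Ψ J F A V z z' G → Ψ J F B V z z' G)
    (hex : Bas S (fun J F A => ∃ (V : Type) (z : PtT F → V) (z' : LnT F → V)
      (G : V → MvPolynomial (Option (Fin m)) ℝ), Ψ J F A V z z' G)) :
    ∃ S' : PCl m, S'.Ne ∧ (∀ (τ : ℝ) (J : ℕ) (F : Fam m J) (A : F.Ω → Prop),
        S'.St τ J F A → S.St τ J F A) ∧
      RecG S' al g₀ P θ P₂ θ₂ Eb e₂ c Pt r hr K₀ g L T Sl κg Gs S₀ N As Vs S₂ N' V' K ε q t ∧
      Bas S' (fun J F A => ∃ (V : ℕ → Type) (z : ∀ i, PtT F → V i) (z' : ∀ i, LnT F → V i)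
        (G : ∀ i, V i → MvPolynomial (Option (Fin m)) ℝ),
        NzM Ψ c r₀ κ D w n v p₁ pq₂ e u p J F A V z z' G) := by
  classical
  obtain ⟨S', k1, k2, k3⟩ := her_extc (ι := Unit) Rc.ne (fun _ J F A =>
      ∃ (V : ℕ → Type) (z : ∀ i, PtT F → V i) (z' : ∀ i, LnT F → V i)
        (G : ∀ i, V i → MvPolynomial (Option (Fin m)) ℝ),
        NzM Ψ c r₀ κ D w n v p₁ pq₂ e u p J F A V z z' G)
    (fun _ J F A B hB => by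
      rintro ⟨V, z, z', G, hG⟩
      exact ⟨V, z, z', G, NzM.hs hΨs hB hG⟩) (fun _ => ⟨8 ^ n, nzm_ex n h1 h2 h3 hΨs hex⟩)
  exact ⟨S', k1, k2, Rc.sub k1 k2, k3 ()⟩

end List

end Pool.V0N
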