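import Pool.Agent.H60.V0B.Alm
import Pool.Agent.H60.V0B.Nzm
import Pool.Agent.H60.ALT.Alo

/-!
# The family of labels of a list of windows, for a record

`AlM`: one family of labels `Ψ` before the first window of the list, natural labels of all windows
of the list over one label of `Ψ` on all events (`nzm`), the data `AlpD` of all pairs, the rows and
the numbers with the exact rate, in the form of the premises of `V0cBStmt`, the slopes at the later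
windows. `alm_rec`: all of it in one subclass with the same record.
-/

set_option autoImplicit false

namespace Pool.V0N

open Finset Real MvPolynomial
open Pool.Agent.H49.Ent Pool.Agent.H32.Dense Pool.STK Pool.KA Pool.KSAT Pool.K2S Pool.PB Pool.S6C
  Pool.GEN Pool.RCD Pool.LA91 Pool.OWN68 Pool.PKG Pool.ALT
open Pool.UNJ (ceI)
open Pool.GRD (LbP)
open Pool.V0F (LbU her_extc)

/-- **The family of labels of a list of windows** `vv i`, `i < n`. -/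
structure AlM {r₀ : ℕ} (S : PCl (r₀ + 2)) (c : ℕ → Fin (r₀ + 2)) (L : ℕ → ℝ → ℝ → ℝ) (D n : ℕ)
    (vv : ℕ → ℝ) (b R h δ δ' lam g ℓ μ ρ q t : ℝ) (Ψ : Fml (r₀ + 2)) (w : ℝ)
    (p₁ p₂ eN uN pN : ℕ → ℝ) : Prop where
  hs : ∀ (J : ℕ) (F : Fam (r₀ + 2) J) (A B : F.Ω → Prop) (V : Type) (z : PtT F → V)
    (z' : LnT F → V) (G : V → MvPolynomial (Option (Fin (r₀ + 2))) ℝ), Sub B A →
    Ψ J F A V z z' G → Ψ J F B V z z' G
  lb : ∃ e₀ ρ₀ π₀ : ℝ, 0 ≤ e₀ ∧ ρ₀ ≤ 1 ∧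
    (∀ i < n, e₀ + L (r₀ + 1) (vv i) (vv i) + μ ≤ 1 ∧ π₀ < L (r₀ + 1) (vv i) (vv i)) ∧
    ∀ (J : ℕ) (F : Fam (r₀ + 2) J)
    (A : F.Ω → Prop) (V : Type) (z : PtT F → V) (z' : LnT F → V)
    (G : V → MvPolynomial (Option (Fin (r₀ + 2))) ℝ), Ψ J F A V z z' G →
    LbOK F ((range (r₀ + 1)).image c) (c (r₀ + 1)) D ⌊e₀ * J⌋₊ J ⌊w * J⌋₊ ⌊ρ₀ * J⌋₊ ⌊π₀ * J⌋₊ A
      z z' G
  w0 : 0 ≤ w
  wv : ∀ i < n, w ≤ vv i
  wq : vv 0 - q / 2 ≤ w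
  wR : t - (R + 1) * q ≤ w
  wl : vv 0 - 2 * ℓ * q ≤ w
  wu : w ≤ vv 0 - ℓ * q
  v1 : ∀ i < n, vv i ≤ 1
  e0 : ∀ i < n, 0 < eN i
  e1 : ∀ i < n, eN i + L (r₀ + 1) (vv i) (vv i) + μ / 2 < 1
  u1 : ∀ i < n, uN i + μ / 2 < 1
  pN0 : ∀ i < n, 0 ≤ pN i
  pN1 : ∀ i < n, L (r₀ + 1) (vv i) (vv i) - δ * lam * q / 8 ≤ pN i
  pN2 : ∀ i < n, pN i < L (r₀ + 1) (vv i) (vv i)
  nzo : ∀ i < n, NzO S Ψ c r₀ (c (r₀ + 1)) D D D w (vv i) (p₁ i) (p₂ i) (eN i) (uN i) (pN i)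
  ch1 : ∀ i < n, Bas S (fun J F A => ∃ (P₁ : ℕ) (V₁ : Type) (z₁ : PtT F → V₁)
    (z₁' : LnT F → V₁) (G₁ : V₁ → MvPolynomial (Option (Fin (r₀ + 2))) ℝ),
    LbP F ((range (r₀ + 1)).image c) (c (r₀ + 1)) D J ⌊vv i * J⌋₊ P₁ A z₁ z₁' G₁ ∧
      p₁ i * J ≤ P₁)
  ch2 : ∀ i < n, Bas S (fun J F A => ∃ (P₂ : ℕ) (V₂ : Type) (z₂ : PtT F → V₂)
    (z₂' : LnT F → V₂) (H : V₂ → MvPolynomial (Option (Fin (r₀ + 2))) ℝ),
    LbP F ((range r₀).image c) (c r₀) D J ⌊vv i * J⌋₊ P₂ A z₂ z₂' H ∧ p₂ i * J ≤ P₂)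
  nzm : Bas S (fun J F A => ∃ (V : ℕ → Type) (z : ∀ i, PtT F → V i) (z' : ∀ i, LnT F → V i)
    (G : ∀ i, V i → MvPolynomial (Option (Fin (r₀ + 2))) ℝ),
    NzM Ψ c r₀ (c (r₀ + 1)) D w n vv p₁ p₂ eN uN pN J F A V z z' G)
  alp : ∀ i < n, ∀ j < n, ∀ lm rr nn : ℝ, lam ≤ lm → lm ≤ rr →
    (lm + g) * q ≤ b * (vv j - vv i) → (rr + g) * q ≤ b * (t + R * q - vv i) →
    (8 * b + 8 * rr) * q ≤ μ → 1 - μ / 2 ≤ nn → nn ≤ 1 →
    AlpD S Ψ c r₀ (c (r₀ + 1)) D w (vv i) (vv j) (L (r₀ + 1) (vv i) (vv i)) (lm * q) (rr * q) nn h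
      (δ * (lm * q) / 4) (p₁ i) (p₂ i) (eN i) (uN i) (pN i)
  row : ∀ i < n, ∀ lo hi : ℝ, L (r₀ + 1) (vv i) (vv i) ≤ lo → lo < hi →
    hi ≤ L (r₀ + 1) (vv i) (vv i) + μ / 2 → hi + g * q ≤ L (r₀ + 1) t t + b * (R * q) →
    RowN S (NzF Ψ c r₀ (c (r₀ + 1)) D D D w (vv i) (p₁ i) (p₂ i) (eN i) (uN i) (pN i)) c r₀
      (c (r₀ + 1)) (vv i) lo hi ρ (δ' * q)
  low : ∀ i < n, ∀ j lo hi : ℝ, vv i ≤ j → |j - t| ≤ R * q → lo < hi →
    hi ≤ L (r₀ + 1) (vv i) (vv i) + μ / 2 → hi + g * q ≤ L (r₀ + 1) t t + b * (R * q) →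
    LowN S (NzF Ψ c r₀ (c (r₀ + 1)) D D D w (vv i) (p₁ i) (p₂ i) (eN i) (uN i) (pN i)) c r₀
      (c (r₀ + 1)) (vv i) j lo hi (L (r₀ + 1) j j) ρ (δ' * q)

theorem AlM.sub {r₀ : ℕ} {S S' : PCl (r₀ + 2)} {c : ℕ → Fin (r₀ + 2)} {L : ℕ → ℝ → ℝ → ℝ}
    {D n : ℕ} {vv : ℕ → ℝ} {b R h δ δ' lam g ℓ μ ρ q t : ℝ} {Ψ : Fml (r₀ + 2)} {w : ℝ}
    {p₁ p₂ eN uN pN : ℕ → ℝ} (hS : SubC S' S)
    (H : AlM S c L D n vv b R h δ δ' lam g ℓ μ ρ q t Ψ w p₁ p₂ eN uN pN) :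
    AlM S' c L D n vv b R h δ δ' lam g ℓ μ ρ q t Ψ w p₁ p₂ eN uN pN :=
  { H with
    nzo := fun i hi => (H.nzo i hi).sub hS
    ch1 := fun i hi => (H.ch1 i hi).sub hS
    ch2 := fun i hi => (H.ch2 i hi).sub hS
    nzm := H.nzm.sub hS
    alp := fun i hi j hj lm rr nn a1 a2 a3 a4 a5 a6 a7 =>
      (H.alp i hi j hj lm rr nn a1 a2 a3 a4 a5 a6 a7).sub hS
    row := fun i hi lo hi' a1 a2 a3 a4 => (H.row i hi lo hi' a1 a2 a3 a4).sub hS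
    low := fun i hi j lo hi' a1 a2 a3 a4 a5 => (H.low i hi j lo hi' a1 a2 a3 a4 a5).sub hS }

/-- **The family of labels of a list of windows**, and the slopes at the later windows, for a
record. -/
theorem alm_rec (r₀ S₀ : ℕ) (hS₀ : 1 ≤ S₀) : ∃ D₀ : ℕ, 1 ≤ D₀ ∧ ∀ D : ℕ, D₀ ≤ D →
    ∀ {b h δ δ' lam g R K₁ ℓ₀ X g₂ : ℝ}, 0 < b → 0 < h → h ≤ 1 → 0 < δ → 0 < δ' → 0 < lam →
    0 < g → 0 ≤ R → 0 ≤ K₁ → 0 < ℓ₀ → 0 < X → 0 < g₂ → 2 * X ≤ b * g₂ →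
    ∃ ℓ h₁ ε₁ e₁ : ℝ, 0 < ℓ ∧ ℓ ≤ ℓ₀ ∧ 0 < h₁ ∧ 0 < ε₁ ∧ 0 < e₁ ∧
    ∀ {S : PCl (r₀ + 2)} {al : ℝ} {g₀ : ℝ → ℝ}
    {P : List (Fin (r₀ + 2)) × Fin (r₀ + 2) → ℝ → ℝ → ℝ}
    {θ : ℝ} {P₂ : ℕ → List (Fin (r₀ + 2)) × Fin (r₀ + 2) → ℝ → ℝ → ℝ} {θ₂ Eb e₂ : ℕ → ℝ}
    {c : ℕ → Fin (r₀ + 2)} {Pt : ℝ → ℝ → ℝ} {r : ℝ → ℝ} {hr K₀ gr : ℝ} {L T : ℕ → ℝ → ℝ → ℝ}
    {Sl : ℕ → ℝ} {κ : ℕ → Kg} {G : Set ℝ} {N : ℕ} {A V : ℕ → ℝ} {S₂ N' : ℕ} {V' : ℕ → ℝ}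
    {K ε q t : ℝ}
    (_ : RecG S al g₀ P θ P₂ θ₂ Eb e₂ c Pt r hr K₀ gr L T Sl κ G S₀ N A V S₂ N' V' K ε q t)
    (_ : Sl (r₀ + 1) = b) (_ : R + 1 ≤ K) (_ : ε ≤ ε₁) (_ : ∀ k < N', |V' k| ≤ K)
    (_ : ∀ k < N', ∃ rd : ℕ → ℝ, Chn S c 0 (r₀ + 1) (t + V' k * q) (t + V' k * q)
      (L r₀ (t + V' k * q) (t + V' k * q)) (fun l => L l (t + V' k * q) (t + V' k * q)) rd)
    {μ : ℝ} (_ : ∀ k < N', ∃ E rk : ℝ, 0 ≤ E ∧
      E + L (r₀ + 1) (t + V' k * q) (t + V' k * q) + μ ≤ 1 ∧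
      L r₀ (t + V' k * q) (t + V' k * q) + μ ≤ 1 ∧
      LbU S ((range (r₀ + 1)).image c) (c (r₀ + 1)) (t + V' k * q)
        (L (r₀ + 1) (t + V' k * q) (t + V' k * q)) rk E)
    {x e₀ ρ₀ π₀ φ e : ℝ} {Kf k₁ : ℕ} (_ : |t - x| ≤ K₁ * q) (_ : Kf ≤ D) (_ : 0 < e)
    (_ : e ≤ e₁) (_ : 0 ≤ φ) (_ : φ ≤ (1 - h) * b * Real.log 2)
    (_ : ∀ k ≥ k₁, AltAt S ((range (r₀ + 1)).image c) ((range r₀).image c) (c (r₀ + 1)) Kf e₀ ρ₀
      π₀ (fun w => L (r₀ + 1) w w) x φ e k)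
    (_ : (K₁ + R + 1) * q ≤ (1 / 2) ^ k₁) (_ : ρ₀ ≤ 1) (_ : 0 ≤ e₀) (_ : 0 < μ)
    (_ : 8 * b * q ≤ μ) {n : ℕ} {ks : ℕ → ℕ} (_ : 0 < n) (_ : ∀ i < n, ks i < N')
    (_ : ∀ i < n, |V' (ks i)| ≤ R) (_ : ∀ i < n, V' (ks 0) ≤ V' (ks i))
    (_ : ∀ i < n, μ ≤ L (r₀ + 1) (t + V' (ks i) * q) (t + V' (ks i) * q) ∧
      e₀ + L (r₀ + 1) (t + V' (ks i) * q) (t + V' (ks i) * q) + μ ≤ 1 ∧
      π₀ < L (r₀ + 1) (t + V' (ks i) * q) (t + V' (ks i) * q) ∧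
      L (r₀ + 1) (t + V' (ks i) * q) (t + V' (ks i) * q) +
        L r₀ (t + V' (ks i) * q) (t + V' (ks i) * q) - π₀ < 1),
    ∃ S' : PCl (r₀ + 2), S'.Ne ∧ SubC S' S ∧
      RecG S' al g₀ P θ P₂ θ₂ Eb e₂ c Pt r hr K₀ gr L T Sl κ G S₀ N A V S₂ N' V' K ε q t ∧
      (∀ k < N', ∃ E Eu : ℝ, AlW S' c r₀ (c (r₀ + 1)) D (t + V' k * q)
        (L (r₀ + 1) (t + V' k * q) (t + V' k * q)) (L r₀ (t + V' k * q) (t + V' k * q)) E Eu
        (L r₀ (t + V' k * q) (t + V' k * q))) ∧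
      ∃ (Ψ : Fml (r₀ + 2)) (w : ℝ) (p₁ p₂ eN uN pN : ℕ → ℝ),
        AlM S' c L D n (fun i => t + V' (ks i) * q) b R h δ δ' lam g ℓ μ (φ / b) q t Ψ w
          p₁ p₂ eN uN pN ∧
        -- the slopes at the later windows
        ∀ η : ℝ, 0 < η → η ≤ h₁ → ∀ i < n, ∀ k < N', V' (ks 0) + g₂ ≤ V' k →
          |V' k| ≤ R → V' k + g₂ ≤ R → X * q ≤ μ →
          X * q ≤ L r₀ (t + V' k * q) (t + V' k * q) →
          e₀ + L (r₀ + 1) (t + V' k * q) (t + V' k * q) < 1 →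
          L (r₀ + 1) (t + V' k * q) (t + V' k * q) + L r₀ (t + V' k * q) (t + V' k * q) +
            X * q ≤ 1 + π₀ →
          BlB S' c r₀ (c (r₀ + 1)) (t + V' (ks i) * q) (t + V' k * q) D D
            (L (r₀ + 1) (t + V' k * q) (t + V' k * q) - 2 * (η * q))
            (L r₀ (t + V' k * q) (t + V' k * q) - 2 * (η * q))
            (L r₀ (t + V' k * q) (t + V' k * q) -
              L (r₀ + 1) (t + V' k * q) (t + V' k * q) + X * q)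
            (NzF Ψ c r₀ (c (r₀ + 1)) D D D w (t + V' (ks i) * q) (p₁ i) (p₂ i) (eN i) (uN i)
              (pN i)) := by
  classical
  obtain ⟨D₀, hD₀, halw⟩ := alw_rec r₀ S₀ hS₀
  refine ⟨D₀, hD₀, ?_⟩
  intro D hD b h δ δ' lam g R K₁ ℓ₀ X g₂ hb hh hh1 hδ hδ' hlam hg hR hK₁ hℓ₀ hX hg₂ hXg
  obtain ⟨ℓ, ε₃, e₃, hℓ, hℓ₁, hε₃, he₃, hlin⟩ := alm_lin D (M := 2 * (K₁ + R + 1)) hb hh hh1 hδ
    (half_pos hδ') hlam hg (by positivity) hℓ₀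
  obtain ⟨ℓ', hℓ'⟩ : ∃ ℓ' : ℝ, ℓ' = min (X / (4 * b)) (min g₂ 1) := ⟨_, rfl⟩
  have hℓ0 : 0 < ℓ' := by
    rw [hℓ']
    exact lt_min (by positivity) (lt_min hg₂ one_pos)
  have hℓX : 4 * (b * ℓ') ≤ X := by
    have h1 : ℓ' ≤ X / (4 * b) := by rw [hℓ']; exact min_le_left _ _
    rw [le_div_iff₀ (by positivity)] at h1
    linarith
  have hℓg : ℓ' ≤ g₂ := by rw [hℓ']; exact (min_le_right _ _).trans (min_le_left _ _)
  have hℓ1 : ℓ' ≤ 1 := by rw [hℓ']; exact (min_le_right _ _).trans (min_le_right _ _)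
  obtain ⟨h₁, ε₂, e₂', hh₁, hε₂, he₂', hbb⟩ := bbw_lin r₀ D (M := 2 * (K₁ + R + 1)) hb hh hh1 hX
    hℓ0 hℓX (by positivity)
  refine ⟨ℓ, h₁, min ε₃ (min ε₂ (X / 2)), min e₃ e₂', hℓ, hℓ₁, hh₁,
    lt_min hε₃ (lt_min hε₂ (half_pos hX)), lt_min he₃ he₂', ?_⟩
  intro S al g₀ P θ P₂ θ₂ Eb e₂ c Pt r hr K₀ gr L T Sl κ G N A V S₂ N' V' K ε q t Rc hSl hRK hεε'
    hV hch μ hlab x e₀ ρ₀ π₀ φ e Kf k₁ htx hKf he0 he1' hφ0 hφ hat hk₁ hρ₀ he₀ hμ hμq n ks hn hks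
    hVR hV0 hwin
  have hq := Rc.q0
  have hεε : ε ≤ ε₃ := hεε'.trans (min_le_left _ _)
  have hεε2 : ε ≤ ε₂ := hεε'.trans ((min_le_right _ _).trans (min_le_left _ _))
  have hεεX : ε ≤ X / 2 := hεε'.trans ((min_le_right _ _).trans (min_le_right _ _))
  have he1 : e ≤ e₃ := he1'.trans (min_le_left _ _)
  have he12 : e ≤ e₂' := he1'.trans (min_le_right _ _)
  choose! E rk hE0 hE1 hE2 hE3 using hlab
  obtain ⟨S₁, hs₁, Rc₁, hw⟩ := halw Rc (by linarith) hV hch E rk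
    (fun k hk => ⟨hE0 k hk, by linarith [hE1 k hk], hE3 k hk⟩)
  have hmonoD : ∀ {v p1 p2 E1 E2 u : ℝ}, AlW S₁ c r₀ (c (r₀ + 1)) D₀ v p1 p2 E1 E2 u →
      AlW S₁ c r₀ (c (r₀ + 1)) D v p1 p2 E1 E2 u := fun H => H.deg hD
  obtain ⟨k, hk, hk2, hk3⟩ := pow_near (X := (K₁ + R + 1) * q) (by positivity) hk₁
  have hRq : 0 ≤ R * q := by positivity
  have hRK' : (R + 1) * q ≤ K * q := mul_le_mul_of_nonneg_right hRK hq.le
  have htx' := abs_le.1 htx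
  obtain ⟨htx1, htx2⟩ := htx'
  have e1 : (K₁ + R + 1) * q = K₁ * q + (R + 1) * q := by ring
  rw [e1] at hk2 hk3
  have ht0 := Rc.t0
  have ht1 := Rc.t1
  have hbx : ∀ y : ℝ, |y - t| ≤ (R + 1) * q → |y - t| ≤ K * q := fun y hy => hy.trans hRK'
  have hεq : ε * q ≤ ε₃ * q := mul_le_mul_of_nonneg_right hεε hq.le
  have hVq : ∀ {y : ℝ}, |y| ≤ R → |t + y * q - t| ≤ R * q := by
    intro y hy
    rw [add_sub_cancel_left, abs_mul, abs_of_pos hq]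
    exact mul_le_mul_of_nonneg_right hy hq.le
  have hEm : ∀ k < N', max (E k) (L r₀ (t + V' k * q) (t + V' k * q) -
      L (r₀ + 1) (t + V' k * q) (t + V' k * q)) + L (r₀ + 1) (t + V' k * q) (t + V' k * q) +
      μ ≤ 1 := by
    intro k hk
    have h1 := hE1 k hk
    have h2 := hE2 k hk
    rcases max_choice (E k) (L r₀ (t + V' k * q) (t + V' k * q) -
      L (r₀ + 1) (t + V' k * q) (t + V' k * q)) with h3 | h3
    · rw [h3]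
      linarith
    · rw [h3]
      linarith
  have hinj : Set.InjOn c (Set.Iio (r₀ + 1)) := Rc₁.inj.mono (by
      intro y hy
      rw [Set.mem_Iio] at hy ⊢
      omega)
  have hmonL : ∀ y y' : ℝ, |y - t| ≤ (R + 1) * q → |y' - t| ≤ (R + 1) * q → y ≤ y' →
      L (r₀ + 1) y y ≤ L (r₀ + 1) y' y' := by
    intro y y' hy hy' hyy
    have h1 := abs_le.1 (hbx y hy)
    have h2 := abs_le.1 (hbx y' hy')
    exact (Rc.lawL (r₀ + 1) (by omega)).mono (by linarith) le_rfl hyy hyy le_rfl (by linarith)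
  obtain ⟨w, o₁, c1, c2, c3, c4, c10, c11, Ψ, hΨ, hΨs, hΨl, hex, hnat, hrow, hlow⟩ :=
    hlin Rc₁.tmc Rc₁.pos hKf hinj ((hat k hk).sub hs₁) (K := R) (q := q) (t := t)
      (s₀ := L (r₀ + 1) t t) (v₀ := t + V' (ks 0) * q) (μ := μ) he0 he1 hφ0 hφ hq (by linarith)
      (by linarith) (by linarith) (by linarith) (by linarith) (fun y hy => by
        have h1 := Rc.dL (r₀ + 1) (by omega) y (hbx y hy)
        rw [hSl] at h1
        exact h1.trans hεq) hmonL (hVq (hVR 0 hn)) hρ₀ he₀ hμ hμq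
  have hVq0 : ∀ i < n, t + V' (ks 0) * q ≤ t + V' (ks i) * q := fun i hi => by
    have := mul_le_mul_of_nonneg_right (hV0 i hi) hq.le
    linarith
  have hnat' : ∀ i, ∃ p₁ p₂ pN : ℝ, i < n → p₁ < L (r₀ + 1) (t + V' (ks i) * q)
      (t + V' (ks i) * q) ∧ p₂ < L r₀ (t + V' (ks i) * q) (t + V' (ks i) * q) ∧
      0 ≤ pN ∧ pN < L (r₀ + 1) (t + V' (ks i) * q) (t + V' (ks i) * q) ∧
      L (r₀ + 1) (t + V' (ks i) * q) (t + V' (ks i) * q) - δ * lam * q / 8 ≤ pN ∧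
      NzO S₁ Ψ c r₀ (c (r₀ + 1)) D D D w (t + V' (ks i) * q) p₁ p₂
        (max (E (ks i)) (L r₀ (t + V' (ks i) * q) (t + V' (ks i) * q) -
          L (r₀ + 1) (t + V' (ks i) * q) (t + V' (ks i) * q)) + μ / 4)
        (L r₀ (t + V' (ks i) * q) (t + V' (ks i) * q) + μ / 8) pN ∧
      ∀ {a pua Ea Eua ua lm rr nn : ℝ},
        AlW S₁ c r₀ (c (r₀ + 1)) D a (L (r₀ + 1) a a) pua Ea Eua ua →
        |a - t| ≤ R * q → e₀ + L (r₀ + 1) a a + μ ≤ 1 → Ea + L (r₀ + 1) a a + μ ≤ 1 →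
        ua + μ ≤ 1 → L (r₀ + 1) a a + pua - π₀ < 1 → lam ≤ lm → lm ≤ rr →
        (lm + g) * q ≤ b * (a - (t + V' (ks i) * q)) →
        (rr + g) * q ≤ b * (t + R * q - (t + V' (ks i) * q)) → (8 * b + 8 * rr) * q ≤ μ →
        1 - μ / 2 ≤ nn → nn ≤ 1 →
        AlpD S₁ Ψ c r₀ (c (r₀ + 1)) D w (t + V' (ks i) * q) a
          (L (r₀ + 1) (t + V' (ks i) * q) (t + V' (ks i) * q)) (lm * q) (rr * q) nn h
          (δ * (lm * q) / 4) p₁ p₂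
          (max (E (ks i)) (L r₀ (t + V' (ks i) * q) (t + V' (ks i) * q) -
            L (r₀ + 1) (t + V' (ks i) * q) (t + V' (ks i) * q)) + μ / 4)
          (L r₀ (t + V' (ks i) * q) (t + V' (ks i) * q) + μ / 8) pN := by
    intro i
    by_cases hi : i < n
    · obtain ⟨m1, m2, m3, m4⟩ := hwin i hi
      obtain ⟨p₁, p₂, pN, a1, a2, a0, a3, a4, a5, a6⟩ := hnat (hmonoD (hw (ks i) (hks i hi)))
        (hVq0 i hi) (hVq (hVR i hi)) m1 m2 (hEm (ks i) (hks i hi)) (hE2 (ks i) (hks i hi)) m3 m4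
      exact ⟨p₁, p₂, pN, fun _ => ⟨a1, a2, a0, a3, a4, a5, a6⟩⟩
    · exact ⟨0, 0, 0, fun h => absurd h hi⟩
  choose p₁ p₂ pN hp using hnat'
  obtain ⟨eN, heN⟩ : ∃ eN : ℕ → ℝ, eN = fun i =>
    max (E (ks i)) (L r₀ (t + V' (ks i) * q) (t + V' (ks i) * q) -
      L (r₀ + 1) (t + V' (ks i) * q) (t + V' (ks i) * q)) + μ / 4 := ⟨_, rfl⟩
  obtain ⟨uN, huN⟩ : ∃ uN : ℕ → ℝ, uN = fun i =>
    L r₀ (t + V' (ks i) * q) (t + V' (ks i) * q) + μ / 8 := ⟨_, rfl⟩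
  have hch1 : ∀ i < n, Bas S₁ (fun J F A => ∃ (P₁ : ℕ) (V₁ : Type) (z₁ : PtT F → V₁)
      (z₁' : LnT F → V₁) (G₁ : V₁ → MvPolynomial (Option (Fin (r₀ + 2))) ℝ),
      LbP F ((range (r₀ + 1)).image c) (c (r₀ + 1)) D J ⌊(t + V' (ks i) * q) * J⌋₊ P₁ A z₁ z₁'
        G₁ ∧ p₁ i * J ≤ P₁) := fun i hi => (hmonoD (hw (ks i) (hks i hi))).ch1 (hp i hi).1
  have hch2 : ∀ i < n, Bas S₁ (fun J F A => ∃ (P₂ : ℕ) (V₂ : Type) (z₂ : PtT F → V₂)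
      (z₂' : LnT F → V₂) (H : V₂ → MvPolynomial (Option (Fin (r₀ + 2))) ℝ),
      LbP F ((range r₀).image c) (c r₀) D J ⌊(t + V' (ks i) * q) * J⌋₊ P₂ A z₂ z₂' H ∧
        p₂ i * J ≤ P₂) := fun i hi => (hmonoD (hw (ks i) (hks i hi))).ch2 (hp i hi).2.1
  obtain ⟨S₂', k1, k2, Rc₂, k4⟩ := nzm_rec (Ψ := Ψ) (κ := c (r₀ + 1)) (D := D) (w := w) (n := n)
    (v := fun i => t + V' (ks i) * q) (p₁ := p₁) (pq₂ := p₂) (e := eN) (u := uN) (p := pN) Rc₁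
    (fun i hi => by
      rw [heN, huN]
      exact (hp i hi).2.2.2.2.2.1) hch1 hch2 hΨs hex
  have hwv : ∀ i < n, (w : ℝ) ≤ t + V' (ks i) * q := fun i hi => by
    have h1 : 0 ≤ ℓ * q := by positivity
    linarith [hVq0 i hi]
  have hv1 : ∀ i < n, t + V' (ks i) * q ≤ 1 := fun i hi => by
    have := (abs_le.1 (hVq (hVR i hi))).2
    have h2 : R * q ≤ (R + 1) * q := by linarith
    linarith
  have he1 : ∀ i < n, eN i + L (r₀ + 1) (t + V' (ks i) * q) (t + V' (ks i) * q) + μ / 2 < 1 := by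
    intro i hi
    have := hEm (ks i) (hks i hi)
    rw [heN]
    dsimp only
    linarith
  have hu1 : ∀ i < n, uN i + μ / 2 < 1 := by
    intro i hi
    have := hE2 (ks i) (hks i hi)
    rw [huN]
    dsimp only
    linarith
  have he0' : ∀ i < n, 0 < eN i := by
    intro i hi
    have := hE0 (ks i) (hks i hi)
    rw [heN]
    dsimp only
    have := le_max_left (E (ks i)) (L r₀ (t + V' (ks i) * q) (t + V' (ks i) * q) -
      L (r₀ + 1) (t + V' (ks i) * q) (t + V' (ks i) * q))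
    linarith
  have hΨl' : ∀ (J : ℕ) (F : Fam (r₀ + 2) J)
      (A : F.Ω → Prop) (V : Type) (z : PtT F → V) (z' : LnT F → V)
      (G : V → MvPolynomial (Option (Fin (r₀ + 2))) ℝ), Ψ J F A V z z' G →
      LbOK F ((range (r₀ + 1)).image c) (c (r₀ + 1)) D ⌊e₀ * J⌋₊ J ⌊(w : ℝ) * J⌋₊ ⌊ρ₀ * J⌋₊
        ⌊π₀ * J⌋₊ A z z' G := fun J F A V z z' G hG =>
    (hΨl J F A V z z' G hG).mono (Finset.Subset.refl _) hKf le_rfl le_rfl le_rfl
  have hsub : SubC S₂' S := fun τ J F A hA => hs₁ τ J F A (k2 τ J F A hA)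
  refine ⟨S₂', k1, hsub, Rc₂, fun k hk => ⟨_, _, ((hmonoD (hw k hk)).sub k2)⟩, Ψ, w, p₁, p₂, eN, uN,
    pN, ?_, ?_⟩
  · refine { hs := hΨs
             lb := ⟨e₀, ρ₀, π₀, he₀, hρ₀, fun i hi => ⟨(hwin i hi).2.1, (hwin i hi).2.2.1⟩, hΨl'⟩
             w0 := by linarith
             wv := hwv
             wq := c2
             wR := c1
             wl := c3
             wu := c4
             v1 := hv1
             e0 := he0'
             e1 := he1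
             u1 := hu1
             pN0 := fun i hi => (hp i hi).2.2.1
             pN1 := fun i hi => (hp i hi).2.2.2.2.1
             pN2 := fun i hi => (hp i hi).2.2.2.1
             nzo := fun i hi => by
               rw [heN, huN]
               exact (hp i hi).2.2.2.2.2.1.sub k2
             ch1 := fun i hi => (hch1 i hi).sub k2
             ch2 := fun i hi => (hch2 i hi).sub k2
             nzm := k4
             alp := fun i hi j hj lm rr nn a1 a2 a3 a4 a5 a6 a7 => by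
               obtain ⟨m1, m2, m3, m4⟩ := hwin j hj
               rw [heN, huN]
               exact ((hp i hi).2.2.2.2.2.2 (hmonoD (hw (ks j) (hks j hj))) (hVq (hVR j hj)) m2
                 (hEm (ks j) (hks j hj)) (hE2 (ks j) (hks j hj)) m4 a1 a2 a3 a4 a5 a6 a7).sub k2
             row := fun i hi lo hi' a1 a2 a3 a4 => ?_
             low := fun i hi j lo hi' a1 a2 a3 a4 a5 => ?_ }
    · obtain ⟨m1, m2, m3, m4⟩ := hwin i hi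
      have h1 := hmonL (t + V' (ks 0) * q) (t + V' (ks i) * q)
        ((hVq (hVR 0 hn)).trans (by linarith)) ((hVq (hVR i hi)).trans (by linarith)) (hVq0 i hi)
      have h2 := row_n (K := D) (K₁ := D) (Kb := D) (p₁ := p₁ i) (p₂ := p₂ i) (eN := eN i)
        (uN := uN i) (pN := pN i) (δ := δ' / 2 * q) Rc₁.pos hΨl' hΨs (hwv i hi) (hv1 i hi)
        (he0' i hi).le he₀ (by linarith [hu1 i hi]) hρ₀ (by linarith [he1 i hi]) (by linarith) a2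
        (show 0 ≤ φ / b by positivity) (by positivity) (fun sa sb r1 r2 r3 =>
          hrow sa sb (h1.trans (a1.trans r1)) r2 (by linarith))
      have e2 : δ' / 2 * q + δ' / 2 * q = δ' * q := by ring
      rw [e2] at h2
      exact h2.sub k2
    · obtain ⟨m1, m2, m3, m4⟩ := hwin i hi
      obtain ⟨j1, j2⟩ := abs_le.1 a2
      have h2 := low_n (K := D) (K₁ := D) (Kb := D) (p₁ := p₁ i) (p₂ := p₂ i) (eN := eN i)
        (uN := uN i) (pN := pN i) (δ := δ' / 2 * q) Rc₁.pos hΨl' (hwv i hi) a1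
        (by linarith : j ≤ 1) (he0' i hi).le he₀ (by linarith [hu1 i hi]) hρ₀
        (by linarith [he1 i hi]) (by linarith) a3
        (show 0 ≤ φ / b by positivity) (by positivity) (fun sb r1 r2 =>
          hlow j sb ((hVq0 i hi).trans a1) a2 (by linarith))
      have e2 : δ' / 2 * q + δ' / 2 * q = δ' * q := by ring
      rw [e2] at h2
      exact h2.sub k2
  · intro η hη hηh i hi k' hk' hik hkR hkR2 hXμ hXu hek hπk
    replace hbb := @hbb η hη hηh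
    have hg₂q : g₂ * q ≤ V' k' * q - V' (ks 0) * q := by
      have := mul_le_mul_of_nonneg_right hik hq.le
      linarith
    have hℓq : ℓ' * q ≤ g₂ * q := mul_le_mul_of_nonneg_right hℓg hq.le
    have hkR2q : V' k' * q + g₂ * q ≤ R * q := by
      have := mul_le_mul_of_nonneg_right hkR2 hq.le
      linarith
    have hℓ1q : ℓ' * q ≤ q := by
      have := mul_le_mul_of_nonneg_right hℓ1 hq.le
      linarith
    have hℓ2 : 0 ≤ ℓ * q := by positivity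
    have hkq := abs_le.1 (hVq hkR)
    have hiq := abs_le.1 (hVq (hVR 0 hn))
    have e4 : t + V' (ks 0) * q - t = V' (ks 0) * q := by ring
    have e3 : t + V' k' * q - t = V' k' * q := by ring
    rw [e3] at hkq
    rw [e4] at hiq
    have hXq : 2 * (X * q) ≤ b * (g₂ * q) := by
      have := mul_le_mul_of_nonneg_right hXg hq.le
      linarith
    have hbk : b * (g₂ * q) ≤ b * (V' k' * q - V' (ks 0) * q) :=
      mul_le_mul_of_nonneg_left hg₂q hb.le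
    have hRq1 : R * q ≤ (R + 1) * q := by linarith
    have hεX : ε * q ≤ X * q / 2 := by
      have := mul_le_mul_of_nonneg_right hεεX hq.le
      linarith
    obtain ⟨m1, m2, m3, m4⟩ := hwin 0 hn
    have hLk : L (r₀ + 1) (t + V' (ks 0) * q) (t + V' (ks 0) * q) + X * q ≤
        L (r₀ + 1) (t + V' k' * q) (t + V' k' * q) := by
      have d1 := abs_le.1 (Rc.dL (r₀ + 1) (by omega) (t + V' k' * q)
        (hbx _ ((hVq hkR).trans hRq1)))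
      have d2 := abs_le.1 (Rc.dL (r₀ + 1) (by omega) (t + V' (ks 0) * q)
        (hbx _ ((hVq (hVR 0 hn)).trans hRq1)))
      rw [hSl, e3] at d1
      rw [hSl, e4] at d2
      have e5 : b * (V' k' * q - V' (ks 0) * q) = b * (V' k' * q) - b * (V' (ks 0) * q) := by ring
      linarith [d1.1, d2.2]
    have hXp : 0 < X * q := by positivity
    have h4 := hbb Rc₁.tmc Rc₁.pos (κ := c (r₀ + 1)) hinj hKf ((hat k hk).sub hs₁) (K := R)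
      (q := q) (t := t) (s₀ := L (r₀ + 1) t t) (v := t + V' k' * q) (w := w) (o₁ := o₁)
      (hmonoD (hw k' hk')) he0 he12 hφ hq (by linarith) (by linarith)
      (by linarith) (by linarith) (by linarith) (fun y hy => by
        have h1 := Rc.dL (r₀ + 1) (by omega) y (hbx y hy)
        rw [hSl] at h1
        exact h1.trans (mul_le_mul_of_nonneg_right hεε2 hq.le)) hmonL
      c1 (by linarith) (by linarith [hkq.1]) (by linarith [hkq.2]) (by linarith) hρ₀ he₀ hek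
      (by linarith [hEm k' hk']) (by linarith [hE2 k' hk']) (by linarith [hE2 k' hk'])
      (by linarith) hXu (by linarith) (by linarith)
    rw [← hΨ] at h4
    have h5 := (blb_nz (K := D) (K₁ := D) (Ku := D) (p₁ := p₁ i) (p₂ := p₂ i)
      (e := eN i) (u := uN i) (p := pN i) hinj (hwv i hi) (hv1 i hi)
      (fun J F A V z z' G hG => (hΨl J F A V z z' G hG).dep) h4)
    intro a1 a2 a3 a4
    exact Bas.sub k2 (h5 a1 a2 a3 a4)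

end Pool.V0N
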