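import Pool.Agent.H60.V0B.Rl

/-!
# The rows and the number of a natural label, given the exact base and the record

`RowN`, `LowN`: the statements, in the form of the premises `row`, `low` of `V0cBStmt`. `row_n`,
`low_n`: from the rows and the numbers of the family.
-/

set_option autoImplicit false

namespace Pool.V0N

open Finset Real MvPolynomial
open Pool.Agent.H49.Ent Pool.Agent.H32.Dense Pool.STK Pool.KA Pool.KSAT Pool.K2S Pool.PB Pool.S6C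
  Pool.GEN Pool.RCD Pool.LA91 Pool.OWN68 Pool.ALT
open Pool.UNJ (ceI)
open Pool.V0F (cR det_cei det_cei')
open Pool.V0B19 (MhN)

variable {m : ℕ}

/-- **The rows** of the labels of a family at the window `v`, on all large parts, given the exact
base and the record: digits from `lo` to `hi`, rate `ρ`, error `d`. -/
def RowN (S : PCl m) (Φ : Fml m) (c : ℕ → Fin m) (r₀ : ℕ) (κ : Fin m) (v lo hi ρ d : ℝ) : Prop :=
  ∀ ϖ : ℝ, 0 < ϖ → Bas S (fun J F A => ∀ (V : Type) (z : PtT F → V) (z' : LnT F → V)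
    (G : V → MvPolynomial (Option (Fin m)) ℝ), Φ J F A V z z' G →
    ∀ B : F.Ω → Prop, Sub B A → ϖ * Pe F.p A ≤ Pe F.p B → ∀ N₁ N₂ : ℕ, lo * J ≤ N₁ → N₁ ≤ N₂ →
      (N₂ : ℝ) ≤ hi * J →
      CH (Pool.Agent.H49.Ent.cond F.p B True) (MhN F κ ⌊v * J⌋₊ (fun s => G (z' s)) N₂)
        (fun ω => (MhN F κ ⌊v * J⌋₊ (fun s => G (z' s)) N₁ ω,
          ((fun l : Fin r₀ => F.X J ω (c l)), (cR F A v ω, F.W ω)))) ≤
        ρ * ((N₂ : ℝ) - N₁) + d * J)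

/-- **The number** of the labels of a family at the window `v`, given the exact base and the record
of the window `j`: digits from `s` to `N₂`, rate `ρ`, error `d`. -/
def LowN (S : PCl m) (Φ : Fml m) (c : ℕ → Fin m) (r₀ : ℕ) (κ : Fin m)
    (v j lo hi s ρ d : ℝ) : Prop :=
  Bas S (fun J F A => ∀ (V : Type) (z : PtT F → V) (z' : LnT F → V)
    (G : V → MvPolynomial (Option (Fin m)) ℝ), Φ J F A V z z' G →
    ∀ N₂ : ℕ, lo * J ≤ N₂ → (N₂ : ℝ) ≤ hi * J →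
      ρ * ((N₂ : ℝ) - s * J) - d * J ≤
        CH (Pool.Agent.H49.Ent.cond F.p A True) (MhN F κ ⌊v * J⌋₊ (fun s => G (z' s)) N₂)
          (fun ω => ((fun l : Fin r₀ => F.X J ω (c l)), (cR F A j ω, F.W ω))))

theorem RowN.sub {S S' : PCl m} (hs : ∀ (τ : ℝ) (J : ℕ) (F : Fam m J) (A : F.Ω → Prop),
    S'.St τ J F A → S.St τ J F A) {Φ : Fml m} {c : ℕ → Fin m} {r₀ : ℕ} {κ : Fin m}
    {v lo hi ρ d : ℝ} (h : RowN S Φ c r₀ κ v lo hi ρ d) : RowN S' Φ c r₀ κ v lo hi ρ d :=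
  fun ϖ hϖ => Bas.sub hs (h ϖ hϖ)

theorem LowN.sub {S S' : PCl m} (hs : ∀ (τ : ℝ) (J : ℕ) (F : Fam m J) (A : F.Ω → Prop),
    S'.St τ J F A → S.St τ J F A) {Φ : Fml m} {c : ℕ → Fin m} {r₀ : ℕ} {κ : Fin m}
    {v j lo hi s ρ d : ℝ} (h : LowN S Φ c r₀ κ v j lo hi s ρ d) :
    LowN S' Φ c r₀ κ v j lo hi s ρ d := Bas.sub hs h

/-- For a smaller family. -/
theorem RowN.fam {S : PCl m} {Φ Φ' : Fml m} {c : ℕ → Fin m} {r₀ : ℕ} {κ : Fin m}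
    {v lo hi ρ d : ℝ} (h : RowN S Φ c r₀ κ v lo hi ρ d)
    (hΦ : ∀ (J : ℕ) (F : Fam m J) (A : F.Ω → Prop) (V : Type) (z : PtT F → V) (z' : LnT F → V)
      (G : V → MvPolynomial (Option (Fin m)) ℝ), Φ' J F A V z z' G → Φ J F A V z z' G) :
    RowN S Φ' c r₀ κ v lo hi ρ d := fun ϖ hϖ => by
  refine Bas.mono 0 (h ϖ hϖ) ?_
  intro J _ F A h1 V z z' G hG
  exact h1 V z z' G (hΦ J F A V z z' G hG)

theorem LowN.fam {S : PCl m} {Φ Φ' : Fml m} {c : ℕ → Fin m} {r₀ : ℕ} {κ : Fin m}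
    {v j lo hi s ρ d : ℝ} (h : LowN S Φ c r₀ κ v j lo hi s ρ d)
    (hΦ : ∀ (J : ℕ) (F : Fam m J) (A : F.Ω → Prop) (V : Type) (z : PtT F → V) (z' : LnT F → V)
      (G : V → MvPolynomial (Option (Fin m)) ℝ), Φ' J F A V z z' G → Φ J F A V z z' G) :
    LowN S Φ' c r₀ κ v j lo hi s ρ d := by
  refine Bas.mono 0 h ?_
  intro J _ F A h1 V z z' G hG
  exact h1 V z z' G (hΦ J F A V z z' G hG)

theorem p2n {x : ℝ} {N : ℕ} (h : x ≤ N) : (2 : ℝ) ^ x ≤ 2 ^ N := by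
  rw [← Real.rpow_natCast]
  exact Real.rpow_le_rpow_of_exponent_le (by norm_num) h

theorem p2n' {x : ℝ} {N : ℕ} (h : (N : ℝ) ≤ x) : (2 : ℝ) ^ N ≤ 2 ^ x := by
  rw [← Real.rpow_natCast]
  exact Real.rpow_le_rpow_of_exponent_le (by norm_num) h

/-- The number of the grid points. -/
theorem grid_num {lo hi δ : ℝ} (hlh : lo < hi) (ρ : ℝ) (hδ : 0 < δ) :
    ∃ (M : ℕ) (σ : ℝ), 1 ≤ M ∧ 0 < σ ∧ lo + M * σ = hi ∧ 2 * (ρ * σ) ≤ δ := by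
  obtain ⟨M, hM⟩ := exists_nat_ge (2 * ρ * (hi - lo) / δ)
  refine ⟨M + 1, (hi - lo) / ((M + 1 : ℕ) : ℝ), by omega, div_pos (by linarith) (by positivity),
    ?_, ?_⟩
  · rw [mul_div_cancel₀ _ (by positivity)]
    ring
  · rw [div_le_iff₀ hδ] at hM
    have e1 : 2 * (ρ * ((hi - lo) / ((M + 1 : ℕ) : ℝ))) = 2 * ρ * (hi - lo) / ((M + 1 : ℕ) : ℝ) := by
      ring
    rw [e1, div_le_iff₀ (by positivity)]
    push_cast
    linarith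

/-- The grid point below. -/
theorem grid_lo {lo hi σ : ℝ} {M J N : ℕ} (hσ : 0 < σ) (hJ : 0 < J)
    (hM : lo + M * σ = hi) (h1 : lo * J ≤ N) (h2 : (N : ℝ) ≤ hi * J) :
    ∃ i ≤ M, (lo + i * σ) * J ≤ N ∧ (N : ℝ) ≤ (lo + i * σ) * J + σ * J := by
  have hJ0 : (0 : ℝ) < J := by exact_mod_cast hJ
  have hσJ : 0 < σ * J := by positivity
  have h3 : 0 ≤ ((N : ℝ) - lo * J) / (σ * J) := div_nonneg (by linarith) hσJ.le
  have h4 := Nat.floor_le h3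
  have h5 := (Nat.lt_floor_add_one (((N : ℝ) - lo * J) / (σ * J))).le
  rw [le_div_iff₀ hσJ] at h4
  rw [div_le_iff₀ hσJ] at h5
  refine ⟨⌊((N : ℝ) - lo * J) / (σ * J)⌋₊, ?_, ?_, ?_⟩
  · refine Nat.floor_le_of_le ?_
    rw [div_le_iff₀ hσJ]
    have e1 : (M : ℝ) * (σ * J) = hi * J - lo * J := by rw [← hM]; ring
    linarith
  · have e1 : (lo + ⌊((N : ℝ) - lo * J) / (σ * J)⌋₊ * σ) * J = lo * J +
      ⌊((N : ℝ) - lo * J) / (σ * J)⌋₊ * (σ * J) := by ring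
    linarith
  · have e1 : (lo + ⌊((N : ℝ) - lo * J) / (σ * J)⌋₊ * σ) * J = lo * J +
      ⌊((N : ℝ) - lo * J) / (σ * J)⌋₊ * (σ * J) := by ring
    linarith

/-- The grid point above. -/
theorem grid_hi {lo hi σ : ℝ} {M J N : ℕ} (hσ : 0 < σ) (hJ : 0 < J)
    (hM : lo + M * σ = hi) (h1 : lo * J ≤ N) (h2 : (N : ℝ) ≤ hi * J) :
    ∃ i ≤ M, (N : ℝ) ≤ (lo + i * σ) * J ∧ (lo + i * σ) * J ≤ N + σ * J := by
  have hJ0 : (0 : ℝ) < J := by exact_mod_cast hJ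
  have hσJ : 0 < σ * J := by positivity
  have h3 : 0 ≤ ((N : ℝ) - lo * J) / (σ * J) := div_nonneg (by linarith) hσJ.le
  have h4 := Nat.le_ceil (((N : ℝ) - lo * J) / (σ * J))
  have h5 := (Nat.ceil_lt_add_one h3).le
  rw [div_le_iff₀ hσJ] at h4
  refine ⟨⌈((N : ℝ) - lo * J) / (σ * J)⌉₊, ?_, ?_, ?_⟩
  · refine Nat.ceil_le.2 ?_
    rw [div_le_iff₀ hσJ]
    have e1 : (M : ℝ) * (σ * J) = hi * J - lo * J := by rw [← hM]; ring
    linarith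
  · have e1 : (lo + ⌈((N : ℝ) - lo * J) / (σ * J)⌉₊ * σ) * J = lo * J +
      ⌈((N : ℝ) - lo * J) / (σ * J)⌉₊ * (σ * J) := by ring
    linarith
  · have e1 : (lo + ⌈((N : ℝ) - lo * J) / (σ * J)⌉₊ * σ) * J = lo * J +
      ⌈((N : ℝ) - lo * J) / (σ * J)⌉₊ * (σ * J) := by ring
    have h6 : (⌈((N : ℝ) - lo * J) / (σ * J)⌉₊ : ℝ) * (σ * J) ≤
        (((N : ℝ) - lo * J) / (σ * J) + 1) * (σ * J) := mul_le_mul_of_nonneg_right h5 hσJ.le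
    have e2 : (((N : ℝ) - lo * J) / (σ * J) + 1) * (σ * J) = (N : ℝ) - lo * J + σ * J := by
      rw [add_mul, div_mul_cancel₀ _ hσJ.ne']
      ring
    linarith

/-- **The rows of the natural labels**, given the exact base and the record. -/
theorem row_n {S : PCl m} (hpos : ∀ (τ : ℝ) (J : ℕ) (F : Fam m J) (A : F.Ω → Prop),
      S.St τ J F A → 0 < Pe F.p A) {Ψ : Fml m} {c : ℕ → Fin m} {r₀ : ℕ} {κ : Fin m} {K K₁ Kb : ℕ}
    {w v p₁ p₂ eN uN pN e₀ ρ₀ π₀ lo hi ρ d δ : ℝ}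
    (hΨl : ∀ (J : ℕ) (F : Fam m J) (A : F.Ω → Prop) (V : Type) (z : PtT F → V) (z' : LnT F → V)
      (G : V → MvPolynomial (Option (Fin m)) ℝ), Ψ J F A V z z' G →
      LbOK F ((range (r₀ + 1)).image c) κ K ⌊e₀ * J⌋₊ J ⌊w * J⌋₊ ⌊ρ₀ * J⌋₊ ⌊π₀ * J⌋₊ A z z' G)
    (hΨs : ∀ (J : ℕ) (F : Fam m J) (A B : F.Ω → Prop) (V : Type) (z : PtT F → V)
      (z' : LnT F → V) (G : V → MvPolynomial (Option (Fin m)) ℝ), Sub B A → Ψ J F A V z z' G →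
      Ψ J F B V z z' G)
    (hwv : w ≤ v) (hv : v ≤ 1) (heN : 0 ≤ eN) (he₀ : 0 ≤ e₀) (huN : uN ≤ 1) (hρ₀ : ρ₀ ≤ 1)
    (hsN : hi + eN < 1) (hs₀ : hi + e₀ < 1) (hlh : lo < hi) (hρ : 0 ≤ ρ) (hδ : 0 < δ)
    (hrow : ∀ sa sb : ℝ, lo ≤ sa → sa ≤ sb → sb ≤ hi →
      Bas S (fun J F A => ∀ (V : Type) (z : PtT F → V) (z' : LnT F → V)
      (G : V → MvPolynomial (Option (Fin m)) ℝ), Ψ J F A V z z' G →
      CH (Pool.Agent.H49.Ent.cond F.p A True) (xa F κ z' ⌊w * J⌋₊ G sb)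
        (ya F ((range r₀).image c) κ z' ⌊w * J⌋₊ G sa) ≤ (ρ * (sb - sa) + d) * J)) :
    RowN S (NzF Ψ c r₀ κ K K₁ Kb w v p₁ p₂ eN uN pN) c r₀ κ v lo hi ρ (d + δ) := by
  classical
  intro ϖ hϖ
  obtain ⟨M, σ, hM1, hσ, hM, hMδ⟩ := grid_num hlh ρ (half_pos hδ)
  have hpt : ∀ i : ℕ, i ≤ M → lo + i * σ ≤ hi := by
    intro i hi
    rw [← hM]
    have : (i : ℝ) ≤ M := by exact_mod_cast hi
    have := mul_le_mul_of_nonneg_right this hσ.le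
    linarith
  have hall : Bas S (fun J F A => ∀ i < M + 1, ∀ i' < M + 1, i ≤ i' →
      ∀ (V : Type) (z : PtT F → V) (z' : LnT F → V) (G : V → MvPolynomial (Option (Fin m)) ℝ),
      NzF Ψ c r₀ κ K K₁ Kb w v p₁ p₂ eN uN pN J F A V z z' G →
      CH (Pool.Agent.H49.Ent.cond F.p A True)
        (fun ω => ⌊(2 : ℝ) ^ ((lo + i' * σ) * J) * ojet F κ 0 (G (z' (slam F ⌊v * J⌋₊ ω))) ω⌋)
        (fun ω => (⌊(2 : ℝ) ^ ((lo + i * σ) * J) * ojet F κ 0 (G (z' (slam F ⌊v * J⌋₊ ω))) ω⌋,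
          (ceI ((range r₀).image c) (fun _ => J) (F.x ω),
            (z' (slam F ⌊v * J⌋₊ ω), F.W ω)))) ≤
        (ρ * ((lo + i' * σ) - (lo + i * σ)) + d) * J + 2 * Real.log 9) := by
    refine Bas.all (M + 1) fun i hi => Bas.all (M + 1) fun i' hi' => ?_
    by_cases hii : i ≤ i'
    · have hii' : lo + i * σ ≤ lo + i' * σ := by
        have : (i : ℝ) ≤ i' := by exact_mod_cast hii
        have := mul_le_mul_of_nonneg_right this hσ.le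
        linarith
      have h1 := hpt i' (by omega)
      have h0 : lo ≤ lo + i * σ := by
        have : 0 ≤ (i : ℝ) * σ := by positivity
        linarith
      refine Bas.mono 0 (nzf_row hpos hΨl hwv hv heN he₀ huN hρ₀ (by linarith) (by linarith) hii'
        (hrow _ _ h0 hii' h1) (K₁ := K₁) (Kb := Kb) (p₁ := p₁) (p₂ := p₂) (pN := pN)) ?_
      intro J _ F A h2 _
      exact h2
    · exact ⟨1, one_pos, 0, fun _ _ _ _ _ h => absurd h hii⟩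
  obtain ⟨J₁, hJ₁⟩ := exists_nat_ge ((2 * Real.log 9 + 2 * Real.log 5) / (δ / 2))
  refine Bas.mono (J₁ + 1) ((Pool.GRW.bas_part hall (c := 1 / ϖ) (by positivity)).and
    (pos_bas hpos)) ?_
  rintro J hJ F A ⟨HR, hA⟩ V z z' G hG B hBA hBP N₁ N₂ hN₁ hN hN₂
  have hJ0 : 0 < J := by omega
  have hJr : (0 : ℝ) < J := by exact_mod_cast hJ0
  have hB0 : 0 < Pe F.p B := lt_of_lt_of_le (by positivity) hBP
  have hcl := isLaw_cond F.isLaw hB0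
  have hNr : (N₁ : ℝ) ≤ N₂ := by exact_mod_cast hN
  obtain ⟨i, hi, i1, i2⟩ := grid_lo hσ hJ0 hM hN₁ (hNr.trans hN₂)
  obtain ⟨i', hi', i3, i4⟩ := grid_hi hσ hJ0 hM (hN₁.trans hNr) hN₂
  have hii : i ≤ i' := by
    by_contra hcon
    push Not at hcon
    have h1 : ((i' : ℝ) + 1) ≤ i := by exact_mod_cast hcon
    have h2 := mul_le_mul_of_nonneg_right h1 hσ.le
    have h3 : (lo + i' * σ + σ) * J ≤ (lo + i * σ) * J :=
      mul_le_mul_of_nonneg_right (by linarith) hJr.le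
    have h4 : 0 < σ * J := by positivity
    have h5 : (lo + i' * σ + σ) * J = (lo + i' * σ) * J + σ * J := by ring
    linarith
  have h1 := HR B hBA (by
    rw [one_div, ← div_eq_inv_mul, le_div_iff₀ hϖ]
    linarith) i (by omega) i' (by omega) hii V z z' G (NzF.hs hΨs J F A B V z z' G hBA hG)
  obtain ⟨x, hx⟩ : ∃ x : F.Ω → ℝ, x = fun ω => ojet F κ 0 (G (z' (slam F ⌊v * J⌋₊ ω))) ω :=
    ⟨_, rfl⟩
  have h2 := row_scale hcl x (fun ω => ((fun l : Fin r₀ => F.X J ω (c l)), (cR F A v ω, F.W ω)))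
    (a₀ := 2 ^ ((lo + i * σ) * J)) (a := 2 ^ N₁) (b := 2 ^ N₂) (b₁ := 2 ^ ((lo + i' * σ) * J))
    (Real.rpow_pos_of_pos (by norm_num) _).le (p2n i1) (by positivity) (p2n' i3)
  have h3 : CH (Pool.Agent.H49.Ent.cond F.p B True)
      (fun ω => ⌊(2 : ℝ) ^ ((lo + i' * σ) * J) * x ω⌋)
      (fun ω => (⌊(2 : ℝ) ^ ((lo + i * σ) * J) * x ω⌋,
        ((fun l : Fin r₀ => F.X J ω (c l)), (cR F A v ω, F.W ω)))) ≤
      CH (Pool.Agent.H49.Ent.cond F.p B True)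
        (fun ω => ⌊(2 : ℝ) ^ ((lo + i' * σ) * J) * x ω⌋)
        (fun ω => (⌊(2 : ℝ) ^ ((lo + i * σ) * J) * x ω⌋,
          (ceI ((range r₀).image c) (fun _ => J) (F.x ω),
            (z' (slam F ⌊v * J⌋₊ ω), F.W ω)))) := by
    refine CH_mono_cond hcl.nonneg fun ω ω' hω hω' e => ?_
    simp only [Prod.mk.injEq] at e ⊢
    exact ⟨e.1, det_cei rfl _ ω ω' hω hω' e.2.1, cR_code le_rfl hv hG.lb.cls e.2.2.1, e.2.2.2⟩
  rw [hx] at h2 h3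
  have h4 : CH (Pool.Agent.H49.Ent.cond F.p B True) (MhN F κ ⌊v * J⌋₊ (fun s => G (z' s)) N₂)
      (fun ω => (MhN F κ ⌊v * J⌋₊ (fun s => G (z' s)) N₁ ω,
        ((fun l : Fin r₀ => F.X J ω (c l)), (cR F A v ω, F.W ω)))) ≤ _ := h2
  have h5 : (2 * Real.log 9 + 2 * Real.log 5) ≤ δ / 2 * J := by
    have e1 : (J₁ : ℝ) ≤ J := by exact_mod_cast (by omega : J₁ ≤ J)
    have e2 := hJ₁.trans e1
    rw [div_le_iff₀ (half_pos hδ)] at e2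
    linarith
  have h6 : ρ * ((lo + i' * σ) * J - (lo + i * σ) * J) ≤ ρ * ((N₂ : ℝ) - N₁ + 2 * (σ * J)) :=
    mul_le_mul_of_nonneg_left (by linarith) hρ
  have h7 : 2 * (ρ * σ) * J ≤ δ / 2 * J := mul_le_mul_of_nonneg_right hMδ hJr.le
  have e7 : (ρ * ((lo + i' * σ) - (lo + i * σ)) + d) * J =
      ρ * ((lo + i' * σ) * J - (lo + i * σ) * J) + d * J := by ring
  rw [e7] at h1
  have e8 : ρ * ((N₂ : ℝ) - N₁ + 2 * (σ * J)) = ρ * ((N₂ : ℝ) - N₁) + 2 * (ρ * σ) * J := by ring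
  rw [e8] at h6
  have e9 : (d + δ) * J = d * J + δ / 2 * J + δ / 2 * J := by ring
  rw [e9]
  refine h4.trans ?_
  linarith

/-- **The number of the natural labels**, given the exact base and the record of the window `j`. -/
theorem low_n {S : PCl m} (hpos : ∀ (τ : ℝ) (J : ℕ) (F : Fam m J) (A : F.Ω → Prop),
      S.St τ J F A → 0 < Pe F.p A) {Ψ : Fml m} {c : ℕ → Fin m} {r₀ : ℕ} {κ : Fin m} {K K₁ Kb : ℕ}
    {w v j p₁ p₂ eN uN pN e₀ ρ₀ π₀ lo hi s ρ d δ : ℝ}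
    (hΨl : ∀ (J : ℕ) (F : Fam m J) (A : F.Ω → Prop) (V : Type) (z : PtT F → V) (z' : LnT F → V)
      (G : V → MvPolynomial (Option (Fin m)) ℝ), Ψ J F A V z z' G →
      LbOK F ((range (r₀ + 1)).image c) κ K ⌊e₀ * J⌋₊ J ⌊w * J⌋₊ ⌊ρ₀ * J⌋₊ ⌊π₀ * J⌋₊ A z z' G)
    (hwv : w ≤ v) (hvj : v ≤ j) (hj : j ≤ 1) (heN : 0 ≤ eN) (he₀ : 0 ≤ e₀) (huN : uN ≤ 1)
    (hρ₀ : ρ₀ ≤ 1) (hsN : hi + eN < 1) (hs₀ : hi + e₀ < 1) (hlh : lo < hi) (hρ : 0 ≤ ρ)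
    (hδ : 0 < δ)
    (hlow : ∀ sb : ℝ, lo ≤ sb → sb ≤ hi →
      Bas S (fun J F A => ∀ (V : Type) (z : PtT F → V) (z' : LnT F → V)
      (G : V → MvPolynomial (Option (Fin m)) ℝ), Ψ J F A V z z' G →
      (ρ * (sb - s) - d) * J ≤ CH (Pool.Agent.H49.Ent.cond F.p A True)
        (xa F κ z' ⌊w * J⌋₊ G sb)
        (fun ω => (ceI ((range r₀).image c) (fun _ => J) (F.x ω), (cR F A j ω, F.W ω))))) :
    LowN S (NzF Ψ c r₀ κ K K₁ Kb w v p₁ p₂ eN uN pN) c r₀ κ v j lo hi s ρ (d + δ) := by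
  classical
  have hv : v ≤ 1 := hvj.trans hj
  obtain ⟨M, σ, hM1, hσ, hM, hMδ⟩ := grid_num hlh ρ (half_pos hδ)
  have hpt : ∀ i : ℕ, i ≤ M → lo + i * σ ≤ hi := by
    intro i hi
    rw [← hM]
    have : (i : ℝ) ≤ M := by exact_mod_cast hi
    have := mul_le_mul_of_nonneg_right this hσ.le
    linarith
  have hall : Bas S (fun J F A => ∀ i < M + 1,
      ∀ (V : Type) (z : PtT F → V) (z' : LnT F → V) (G : V → MvPolynomial (Option (Fin m)) ℝ),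
      Ψ J F A V z z' G → (ρ * ((lo + i * σ) - s) - d) * J ≤
        CH (Pool.Agent.H49.Ent.cond F.p A True) (xa F κ z' ⌊w * J⌋₊ G (lo + i * σ))
        (fun ω => (ceI ((range r₀).image c) (fun _ => J) (F.x ω), (cR F A j ω, F.W ω)))) := by
    refine Bas.all (M + 1) fun i hi => ?_
    have h0 : lo ≤ lo + i * σ := by
      have : 0 ≤ (i : ℝ) * σ := by positivity
      linarith
    exact hlow _ h0 (hpt i (by omega))
  obtain ⟨E, hE⟩ : ∃ E : ℝ, E = max eN e₀ := ⟨_, rfl⟩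
  have hEn : 0 < 1 - hi - E := by
    rw [hE]
    rcases max_cases eN e₀ with ⟨h, -⟩ | ⟨h, -⟩ <;> rw [h] <;> linarith
  have hl2 : 0 < Real.log 2 := Real.log_pos one_lt_two
  obtain ⟨J₂, hJ₂⟩ := exists_nat_ge (Real.log (4 * (m + 1)) / ((1 - hi - E) * Real.log 2))
  obtain ⟨J₁, hJ₁⟩ := exists_nat_ge ((2 * Real.log 9 + Real.log 5) / (δ / 2))
  refine Bas.mono (J₁ + J₂ + 1) (hall.and (pos_bas hpos)) ?_
  rintro J hJ F A ⟨HR, hA⟩ V z z' G hG N₂ hN₁ hN₂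
  have hJ0 : 0 < J := by omega
  have hJr : (0 : ℝ) < J := by exact_mod_cast hJ0
  have hcl := isLaw_cond F.isLaw hA
  have h0 := hcl.nonneg
  obtain ⟨i, hi', i1, i2⟩ := grid_lo hσ hJ0 hM hN₁ hN₂
  have hpi := hpt i hi'
  have hj1 : Real.log (4 * (m + 1)) ≤ (1 - (lo + i * σ) - E) * Real.log 2 * J := by
    have e1 : (J₂ : ℝ) ≤ J := by exact_mod_cast (by omega : J₂ ≤ J)
    have e2 := hJ₂.trans e1
    rw [div_le_iff₀ (by positivity)] at e2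
    have e3 : (1 - hi - E) * Real.log 2 * J ≤ (1 - (lo + i * σ) - E) * Real.log 2 * J :=
      mul_le_mul_of_nonneg_right (mul_le_mul_of_nonneg_right (by linarith) hl2.le) hJr.le
    linarith
  have hcls := hG.lb.cls
  obtain ⟨V₀, U₁, U₂, z₀, z₀', G₀, Q₁, y₁, y₁', B₁, Q₂, y₂, y₂', B₂, f, hΨ₀, hL⟩ := hG
  have hlb := hΨl J F A V₀ z₀ z₀' G₀ hΨ₀
  have h1 := HR i (by omega) V₀ z₀ z₀' G₀ hΨ₀
  obtain ⟨g, hg⟩ := nzl_shift hwv hv heN he₀ huN hρ₀ hE (s := lo + i * σ) hj1 hlb hL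
  obtain ⟨Y, hY⟩ : ∃ Y : F.Ω → ((Fin m → ℤ) × (V × (ℕ × F.ζ))) ×
      ({D : F.Ω → Prop // Cl2 (ptr F J) (vg j J F) A D} → Prop), Y = fun ω =>
      ((ceI ((range r₀).image c) (fun _ => J) (F.x ω), (z' (slam F ⌊v * J⌋₊ ω), F.W ω)),
        cR F A j ω) := ⟨_, rfl⟩
  have h2 := shift_row hcl (fun ω => ojet F κ 0 (G (z' (slam F ⌊v * J⌋₊ ω))) ω)
    (fun ω => hgt F κ z₀' ⌊w * J⌋₊ G₀ ω) (fun y => -g y.1) Y (a := 0)
    (b := 2 ^ ((lo + i * σ) * J)) le_rfl (Real.rpow_pos_of_pos (by norm_num) _).le (by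
      intro ω hω
      have hAω := of_cond_pos hω
      have h3 := hg ω hAω
      rw [hY]
      dsimp only
      refine le_trans (le_of_eq ?_) h3
      congr 1
      rw [← abs_neg]
      congr 1
      ring)
  have h3 : CH (Pool.Agent.H49.Ent.cond F.p A True) (xa F κ z₀' ⌊w * J⌋₊ G₀ (lo + i * σ))
      (fun ω => (ceI ((range r₀).image c) (fun _ => J) (F.x ω), (cR F A j ω, F.W ω))) ≤
      CH (Pool.Agent.H49.Ent.cond F.p A True)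
        (fun ω => ⌊(2 : ℝ) ^ ((lo + i * σ) * J) * hgt F κ z₀' ⌊w * J⌋₊ G₀ ω⌋)
        (fun ω => (⌊(0 : ℝ) * hgt F κ z₀' ⌊w * J⌋₊ G₀ ω⌋, Y ω)) := by
    refine CH_mono_cond h0 fun ω ω' hω hω' e => ?_
    simp only [Prod.mk.injEq] at e
    rw [hY]
    simp only [Prod.mk.injEq]
    exact ⟨by simp, ⟨e.1, cR_code hvj hj hcls e.2.1, e.2.2⟩, e.2.1⟩
  have h4 : CH (Pool.Agent.H49.Ent.cond F.p A True)
      (fun ω => ⌊(2 : ℝ) ^ ((lo + i * σ) * J) * ojet F κ 0 (G (z' (slam F ⌊v * J⌋₊ ω))) ω⌋)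
      (fun ω => (⌊(0 : ℝ) * ojet F κ 0 (G (z' (slam F ⌊v * J⌋₊ ω))) ω⌋, Y ω)) ≤
      CH (Pool.Agent.H49.Ent.cond F.p A True)
      (fun ω => ⌊(2 : ℝ) ^ ((lo + i * σ) * J) * ojet F κ 0 (G (z' (slam F ⌊v * J⌋₊ ω))) ω⌋)
      (fun ω => ((fun l : Fin r₀ => F.X J ω (c l)), (cR F A j ω, F.W ω))) := by
    refine CH_mono_cond h0 fun ω ω' hω hω' e => ?_
    rw [hY] at e
    simp only [Prod.mk.injEq] at e ⊢
    exact ⟨det_cei' rfl _ ω ω' hω hω' e.2.1.1, e.2.2, e.2.1.2.2⟩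
  have h5 := CH_le_add h0
    (fun ω => ⌊(2 : ℝ) ^ ((lo + i * σ) * J) * ojet F κ 0 (G (z' (slam F ⌊v * J⌋₊ ω))) ω⌋)
    (MhN F κ ⌊v * J⌋₊ (fun s => G (z' s)) N₂)
    (fun ω => ((fun l : Fin r₀ => F.X J ω (c l)), (cR F A j ω, F.W ω)))
  have h6 : CH (Pool.Agent.H49.Ent.cond F.p A True)
      (fun ω => ⌊(2 : ℝ) ^ ((lo + i * σ) * J) * ojet F κ 0 (G (z' (slam F ⌊v * J⌋₊ ω))) ω⌋)
      (fun ω => (MhN F κ ⌊v * J⌋₊ (fun s => G (z' s)) N₂ ω,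
        ((fun l : Fin r₀ => F.X J ω (c l)), (cR F A j ω, F.W ω)))) ≤ Real.log 5 :=
    fl_few hcl _ (Real.rpow_pos_of_pos (by norm_num) _).le (p2n i1) _ fun ω ω' _ _ e =>
      (Prod.ext_iff.mp e).1
  have h7 : (2 * Real.log 9 + Real.log 5) ≤ δ / 2 * J := by
    have e1 : (J₁ : ℝ) ≤ J := by exact_mod_cast (by omega : J₁ ≤ J)
    have e2 := hJ₁.trans e1
    rw [div_le_iff₀ (half_pos hδ)] at e2
    linarith
  have h8 : ρ * ((N₂ : ℝ) - σ * J) ≤ ρ * ((lo + i * σ) * J) :=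
    mul_le_mul_of_nonneg_left (by linarith) hρ
  have h9 : 2 * (ρ * σ) * J ≤ δ / 2 * J := mul_le_mul_of_nonneg_right hMδ hJr.le
  have h10 : 0 ≤ ρ * σ * J := by positivity
  have e7 : (ρ * ((lo + i * σ) - s) - d) * J = ρ * ((lo + i * σ) * J) - ρ * (s * J) - d * J := by
    ring
  rw [e7] at h1
  have e8 : ρ * ((N₂ : ℝ) - σ * J) = ρ * N₂ - ρ * σ * J := by ring
  rw [e8] at h8
  have e9 : ρ * ((N₂ : ℝ) - s * J) - (d + δ) * J = ρ * N₂ - ρ * (s * J) - d * J - δ / 2 * J -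
    δ / 2 * J := by ring
  rw [e9]
  linarith

end Pool.V0N
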