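import Pool.Agent.H60.ALT.Nzq
import Pool.Agent.H19.V0B.S
import Pool.Agent.H92.GN.Rec

/-!
# The rows and the number of a natural label, given the exact base and the record

`RowN`, `LowN`: the statements. `row_n`, `low_n`: from the rows and the numbers of the family.
-/

set_option autoImplicit false

namespace Pool.V0N

open Finset Real MvPolynomial
open Pool.Agent.H49.Ent Pool.Agent.H32.Dense Pool.STK Pool.KA Pool.KSAT Pool.K2S Pool.PB Pool.S6C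
  Pool.GEN Pool.RCD Pool.LA91 Pool.OWN68 Pool.ALT
open Pool.UNJ (ceI)
open Pool.V0F (cR det_cei det_cei')
open Pool.V0B19 (MhN)

variable {m : ℕ}

/-- A closed code is a function of the canonical record of a later window. -/
theorem cR_code {J : ℕ} {F : Fam m J} {A : F.Ω → Prop} {v j : ℝ} (hvj : v ≤ j) (hj : j ≤ 1)
    {V : Type} {z : PtT F → V} {z' : LnT F → V}
    (h : ∀ ω, A ω → z (ptr F J ω) = z' (slam F ⌊v * J⌋₊ ω)) {ω ω' : F.Ω}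
    (e : cR F A j ω = cR F A j ω') :
    z' (slam F ⌊v * J⌋₊ ω) = z' (slam F ⌊v * J⌋₊ ω') := by
  obtain ⟨χ, hχ⟩ := vg_mono hvj hj J F
  have hc : Cl2 (ptr F J) (vg j J F) A (fun ν => z' (slam F ⌊v * J⌋₊ ν)) := by
    refine ⟨⟨z, fun ν hν => (h ν hν).symm⟩, fun x => z' (χ x), fun ν _ => ?_⟩
    have e1 := hχ ν
    show z' (slam F ⌊v * J⌋₊ ν) = z' (χ (vg j J F ν))
    rw [← e1]
    rfl
  have h1 := congrFun e ⟨fun ν => z' (slam F ⌊v * J⌋₊ ν) = z' (slam F ⌊v * J⌋₊ ω),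
    hc.comp fun x => x = z' (slam F ⌊v * J⌋₊ ω)⟩
  have h2 : (z' (slam F ⌊v * J⌋₊ ω) = z' (slam F ⌊v * J⌋₊ ω)) =
      (z' (slam F ⌊v * J⌋₊ ω') = z' (slam F ⌊v * J⌋₊ ω)) := h1
  exact (h2.mp rfl).symm

/-- The canonical record of an earlier window. -/
theorem cR_mono {J : ℕ} {F : Fam m J} {A : F.Ω → Prop} {j j' : ℝ} (hj : j ≤ j') (hj' : j' ≤ 1)
    {ω ω' : F.Ω} (e : cR F A j' ω = cR F A j' ω') : cR F A j ω = cR F A j ω' := by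
  obtain ⟨χ, hχ⟩ := vg_mono hj hj' J F
  funext D
  exact congrFun e ⟨D.1, D.2.mono ⟨fun x => x, fun _ _ => rfl⟩ ⟨χ, fun ν _ => hχ ν⟩⟩

/-- **A label enriched by the record** of a later window. -/
theorem lbok_rec {J : ℕ} {F : Fam m J} {I : Finset (Fin m)} {κ : Fin m} {K e ρ P : ℕ}
    {A : F.Ω → Prop} {w j : ℝ} (hwj : w ≤ j) (hj : j ≤ 1) {V : Type} {z : PtT F → V}
    {z' : LnT F → V} {G : V → MvPolynomial (Option (Fin m)) ℝ}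
    (h : LbOK F I κ K e J ⌊w * J⌋₊ ρ P A z z' G) :
    ∃ (V' : Type) (y : PtT F → V') (y' : LnT F → V') (G' : V' → MvPolynomial (Option (Fin m)) ℝ),
      LbOK F I κ K e J ⌊j * J⌋₊ ρ P A y y' G' ∧
      (∀ ω, G' (y' (slam F ⌊j * J⌋₊ ω)) = G (z' (slam F ⌊w * J⌋₊ ω))) ∧
      (∀ ω ω', A ω → A ω' → y' (slam F ⌊j * J⌋₊ ω) = y' (slam F ⌊j * J⌋₊ ω') →
        cR F A j ω = cR F A j ω') := by
  obtain ⟨f1, f2⟩ := floorw hwj hj J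
  have h1 := lbok_win h f1 f2
  choose φ hφ using fun D : {D : F.Ω → Prop // Cl2 (ptr F J) (vg j J F) A D} => D.2.1
  choose ψ hψ using fun D : {D : F.Ω → Prop // Cl2 (ptr F J) (vg j J F) A D} => D.2.2
  refine ⟨V × ({D : F.Ω → Prop // Cl2 (ptr F J) (vg j J F) A D} → Prop),
    fun x => (z x, fun D => φ D x), fun x => (wz z' ⌊w * J⌋₊ ⌊j * J⌋₊ x, fun D => ψ D x),
    fun x => G x.1, ?_, fun ω => ?_, fun ω ω' hω hω' e => ?_⟩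
  · refine ⟨fun x => h1.deg _, fun x => h1.dep _, fun ω hω => ?_, fun ω hω => h1.pos ω hω,
      fun ω hω => h1.vel ω hω, fun ω hω => h1.lip ω hω⟩
    refine Prod.ext (h1.cls ω hω) (funext fun D => ?_)
    show φ D (ptr F J ω) = ψ D (slam F ⌊j * J⌋₊ ω)
    rw [← hφ D ω hω]
    exact hψ D ω hω
  · show G (wz z' ⌊w * J⌋₊ ⌊j * J⌋₊ (slam F ⌊j * J⌋₊ ω)) = _
    rw [wz_slam z' f1 f2]
  · funext D
    have e1 := congrFun (Prod.ext_iff.mp e).2 D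
    show D.1 ω = D.1 ω'
    have a1 : D.1 ω = ψ D (slam F ⌊j * J⌋₊ ω) := hψ D ω hω
    have a2 : D.1 ω' = ψ D (slam F ⌊j * J⌋₊ ω') := hψ D ω' hω'
    rw [a1, a2]
    exact e1

/-- Other scales of a row. -/
theorem row_scale {Ω C : Type} [Fintype Ω] {q : Ω → ℝ} (hq : IsLaw q) (x : Ω → ℝ) (y : Ω → C)
    {a₀ a b b₁ : ℝ} (h0 : 0 ≤ a₀) (ha : a₀ ≤ a) (hb0 : 0 ≤ b) (hb : b ≤ b₁) :
    CH q (fun ω => ⌊b * x ω⌋) (fun ω => (⌊a * x ω⌋, y ω)) ≤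
      CH q (fun ω => ⌊b₁ * x ω⌋) (fun ω => (⌊a₀ * x ω⌋, y ω)) + 2 * Real.log 5 := by
  have h00 := hq.nonneg
  have h1 := CH_le_add h00 (fun ω => ⌊b * x ω⌋) (fun ω => ⌊b₁ * x ω⌋)
    (fun ω => (⌊a * x ω⌋, y ω))
  have h2 : CH q (fun ω => ⌊b * x ω⌋) (fun ω => (⌊b₁ * x ω⌋, (⌊a * x ω⌋, y ω))) ≤
      Real.log 5 := fl_few hq _ hb0 hb _ fun ω ω' _ _ e => (Prod.ext_iff.mp e).1
  have h3 := CH_le_add h00 (fun ω => ⌊b₁ * x ω⌋) (fun ω => ⌊a₀ * x ω⌋)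
    (fun ω => (⌊a * x ω⌋, y ω))
  have h4 : CH q (fun ω => ⌊a₀ * x ω⌋) (fun ω => (⌊a * x ω⌋, y ω)) ≤ Real.log 5 :=
    fl_few hq _ h0 ha _ fun ω ω' _ _ e => (Prod.ext_iff.mp e).1
  have h5 : CH q (fun ω => ⌊b₁ * x ω⌋) (fun ω => (⌊a₀ * x ω⌋, (⌊a * x ω⌋, y ω))) ≤
      CH q (fun ω => ⌊b₁ * x ω⌋) (fun ω => (⌊a₀ * x ω⌋, y ω)) := by
    refine CH_mono_cond h00 fun ω ω' _ _ e => ?_
    simp only [Prod.mk.injEq] at e ⊢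
    exact ⟨e.1, e.2.2⟩
  linarith

/-- **The label of the family and the natural label**: the heights differ by a function of the
exact base, the code and the time. -/
theorem nzl_shift {c : ℕ → Fin m} {r₀ : ℕ} {κ : Fin m} {K K₁ Kb : ℕ}
    {w v p₁ p₂ eN uN pN e₀ ρ₀ π₀ s : ℝ} (hwv : w ≤ v) (hv : v ≤ 1) (heN : 0 ≤ eN) (he₀ : 0 ≤ e₀)
    (huN : uN ≤ 1) (hρ₀ : ρ₀ ≤ 1) {E : ℝ} (hE : E = max eN e₀) {J : ℕ}
    (j1 : Real.log (4 * (m + 1)) ≤ (1 - s - E) * Real.log 2 * J) {F : Fam m J} {A : F.Ω → Prop}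
    {V V₀ V₁ V₂ : Type} {z : PtT F → V} {z' : LnT F → V} {G : V → MvPolynomial (Option (Fin m)) ℝ}
    {z₀ : PtT F → V₀} {z₀' : LnT F → V₀} {G₀ : V₀ → MvPolynomial (Option (Fin m)) ℝ} {Q₁ : ℕ}
    {y₁ : PtT F → V₁} {y₁' : LnT F → V₁} {B₁ : V₁ → MvPolynomial (Option (Fin m)) ℝ} {Q₂ : ℕ}
    {y₂ : PtT F → V₂} {y₂' : LnT F → V₂} {B₂ : V₂ → MvPolynomial (Option (Fin m)) ℝ}
    {f : V → V₀ × (V₁ × V₂)}
    (hlb : LbOK F ((range (r₀ + 1)).image c) κ K ⌊e₀ * J⌋₊ J ⌊w * J⌋₊ ⌊ρ₀ * J⌋₊ ⌊π₀ * J⌋₊ A z₀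
      z₀' G₀)
    (hL : NzL c r₀ κ K K₁ Kb w v p₁ p₂ eN uN pN F A z z' G z₀' G₀ Q₁ y₁ y₁' B₁ Q₂ y₂ y₂' B₂ f) :
    ∃ g : (Fin m → ℤ) × (V × (ℕ × F.ζ)) → ℝ, ∀ ω, A ω →
      (2 : ℝ) ^ (s * J) * |ojet F κ 0 (G (z' (slam F ⌊v * J⌋₊ ω))) ω -
        (hgt F κ z₀' ⌊w * J⌋₊ G₀ ω - g (ceI ((range r₀).image c) (fun _ => J) (F.x ω),
          (z' (slam F ⌊v * J⌋₊ ω), F.W ω)))| ≤ 1 := by
  obtain ⟨f1, f2⟩ := floorw hwv hv J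
  have p0 : ∀ x : ℝ, (0 : ℝ) < 2 ^ x := fun x => Real.rpow_pos_of_pos (by norm_num) _
  have hfz : ∀ ω, f (z' (slam F ⌊v * J⌋₊ ω)) = (z₀' (slam F ⌊w * J⌋₊ ω),
      (y₁' (slam F ⌊v * J⌋₊ ω), y₂' (slam F ⌊v * J⌋₊ ω))) := fun ω => by
    rw [hL.cod, wz_slam z₀' f1 f2]
  refine ⟨fun y => eval (Pool.LA91.bx ((range r₀).image c) J J y.2.2.1 y.1)
    (sbu (c r₀) (B₂ (f y.2.1).2.2) (B₁ (f y.2.1).2.1 - G₀ (f y.2.1).1)), fun ω hAω => ?_⟩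
  have e1 : F.W ω = (F.T ω, F.Z ω) := rfl
  dsimp only
  rw [hfz, e1]
  dsimp only
  obtain ⟨Φ, hΦ⟩ : ∃ Φ : MvPolynomial (Option (Fin m)) ℝ, Φ =
    sbu (c r₀) (B₂ (y₂' (slam F ⌊v * J⌋₊ ω))) (B₁ (y₁' (slam F ⌊v * J⌋₊ ω)) -
      G₀ (z₀' (slam F ⌊w * J⌋₊ ω))) := ⟨_, rfl⟩
  rw [← hΦ]
  have hΦ2 : Φ = G (z' (slam F ⌊v * J⌋₊ ω)) - G₀ (z₀' (slam F ⌊w * J⌋₊ ω)) := by
    rw [hΦ, hL.pol, hfz]
    unfold nzG
    ring
  have hdep : DpI ((range r₀).image c) Φ := by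
    rw [hΦ]
    exact sbu_dep (DpI.sub (hL.l1.dep _) (hlb.dep _)) (hL.l2.dep _)
  have hnv := near_val (F := F) (ω := ω) (n := J) (ρ := J) le_rfl
    (fun b hb o => hL.lb.lip ω hAω b (fun o => (hb o).trans (inv_mono (floor_le huN J))) o)
    (fun b hb o => hlb.lip ω hAω b (fun o => (hb o).trans (inv_mono (floor_le hρ₀ J))) o) hΦ2 hdep
  have hnum := few_numJ (m := m) (J := J) (s := s) (by rw [hE]; exact le_max_left eN e₀)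
    (by rw [hE]; exact le_max_right eN e₀) heN he₀ j1
  have e2 : ojet F κ 0 (G (z' (slam F ⌊v * J⌋₊ ω))) ω -
      (hgt F κ z₀' ⌊w * J⌋₊ G₀ ω - eval (Pool.LA91.bx ((range r₀).image c) J J (F.T ω)
        (ceI ((range r₀).image c) (fun _ => J) (F.x ω))) Φ) =
      -(eval (bt F ω) Φ - eval (Pool.LA91.bx ((range r₀).image c) J J (F.T ω)
        (ceI ((range r₀).image c) (fun _ => J) (F.x ω))) Φ) := by
    have e3 : ojet F κ 0 (G (z' (slam F ⌊v * J⌋₊ ω))) ω =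
      F.x ω κ - eval (bt F ω) (G (z' (slam F ⌊v * J⌋₊ ω))) := hgt_eq F κ z' _ G ω
    have e4 : eval (bt F ω) Φ = eval (bt F ω) (G (z' (slam F ⌊v * J⌋₊ ω))) -
        eval (bt F ω) (G₀ (z₀' (slam F ⌊w * J⌋₊ ω))) := by
      rw [hΦ2, map_sub]
    rw [e3, hgt_eq, e4]
    ring
  rw [e2, abs_neg]
  exact (mul_le_mul_of_nonneg_left hnv (p0 _).le).trans hnum

end Pool.V0N
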