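import Pool.Agent.H60.ALT.Alr
import Pool.Agent.H60.V0B.Rn

/-!
# One family of labels, natural labels at all windows

`psi_low`: the number of a label of the family, given the exact base and the record of a later
window. `alm_lin`: the family of the counted labels before a window `v₀`, the natural labels at all
windows from `v₀`, the data `AlpD` of all pairs, the rows and the numbers with the exact rate.
-/

set_option autoImplicit false

namespace Pool.V0N

open Finset Real MvPolynomial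
open Pool.Agent.H49.Ent Pool.Agent.H32.Dense Pool.STK Pool.KA Pool.KSAT Pool.K2S Pool.PB Pool.S6C
  Pool.GEN Pool.RCD Pool.LA91 Pool.OWN68 Pool.ALT
open Pool.UNJ (ceI)
open Pool.GRD (LbP)
open Pool.V0F (cR det_cei det_cei')

variable {m : ℕ}

/-- **The number of a label** given the exact base and the record of a later window. -/
theorem psi_low {S : PCl m} (hpos : ∀ (τ : ℝ) (J : ℕ) (F : Fam m J) (A : F.Ω → Prop),
      S.St τ J F A → 0 < Pe F.p A) {I I₀ : Finset (Fin m)} {κ : Fin m} {K : ℕ}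
    {e₀ ρ₀ π₀ w j j' s₀ s₁ θ : ℝ} (N : CNum (altQ I I₀ κ K e₀ ρ₀ π₀ j' s₀ s₁) S θ)
    (hwj : w ≤ j) (hjj : j ≤ j') (hj' : j' ≤ 1) (η : ℝ) (hη : 0 < η) :
    Bas S (fun J F A => ∀ (V : Type) (z : PtT F → V) (z' : LnT F → V)
      (G : V → MvPolynomial (Option (Fin m)) ℝ), LbOK F I κ K ⌊e₀ * J⌋₊ J ⌊w * J⌋₊ ⌊ρ₀ * J⌋₊
        ⌊π₀ * J⌋₊ A z z' G → (θ - η) * J ≤ CH (Pool.Agent.H49.Ent.cond F.p A True)
        (xa F κ z' ⌊w * J⌋₊ G s₁)
        (fun ω => (ceI I₀ (fun _ => J) (F.x ω), (cR F A j ω, F.W ω)))) := by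
  refine Bas.mono 0 ((alt_low hpos N η hη).and (pos_bas hpos)) ?_
  rintro J - F A ⟨H, hA⟩ V z z' G hG
  have hcl := isLaw_cond F.isLaw hA
  obtain ⟨V', y, y', G', h1, h2, h3⟩ := lbok_rec (hwj.trans hjj) hj' hG
  refine (H V' y y' G' h1).trans ?_
  have e1 : xa F κ y' ⌊j' * J⌋₊ G' s₁ = xa F κ z' ⌊w * J⌋₊ G s₁ := by
    funext ω
    unfold xa
    rw [hgt_eq, hgt_eq, h2]
  rw [e1]
  refine CH_mono_cond hcl.nonneg fun ω ω' hω hω' e => ?_
  unfold ya at e
  simp only [Prod.mk.injEq] at e ⊢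
  have hA1 := of_cond_pos hω
  have hA2 := of_cond_pos hω'
  exact ⟨e.2.2.1, cR_mono hjj hj' (h3 ω ω' hA1 hA2 e.2.1), e.2.2.2⟩

/-- **One family of labels, natural labels at all windows.** -/
theorem alm_lin (D : ℕ) {b h δ δ' lam g M ℓ₀ : ℝ} (hb : 0 < b) (hh : 0 < h) (hh1 : h ≤ 1)
    (hδ : 0 < δ) (hδ' : 0 < δ') (hlam : 0 < lam) (hg : 0 < g) (hM : 0 < M) (hℓ₀ : 0 < ℓ₀) :
    ∃ ℓ ε e₁ : ℝ, 0 < ℓ ∧ ℓ ≤ ℓ₀ ∧ 0 < ε ∧ 0 < e₁ ∧
    ∀ {m : ℕ} {S : PCl m} {C₀ : ℝ} (_ : TmC S C₀)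
    (_ : ∀ (τ : ℝ) (J : ℕ) (F : Fam m J) (A : F.Ω → Prop), S.St τ J F A → 0 < Pe F.p A)
    {c : ℕ → Fin m} {r₀ : ℕ} {κ : Fin m} {Kf : ℕ} (_ : Kf ≤ D)
    (_ : Set.InjOn c (Set.Iio (r₀ + 1))) {e₀ ρ₀ π₀ : ℝ} {s : ℝ → ℝ} {x φ e : ℝ} {k : ℕ}
    (_ : AltAt S ((range (r₀ + 1)).image c) ((range r₀).image c) κ Kf e₀ ρ₀ π₀ s x φ e k)
    {K q t s₀ v₀ μ : ℝ} (_ : 0 < e) (_ : e ≤ e₁) (_ : 0 ≤ φ) (_ : φ ≤ (1 - h) * b * Real.log 2)
    (_ : 0 < q) (_ : x - (1 / 2) ^ k ≤ t - (K + 1) * q) (_ : t + (K + 1) * q ≤ x + (1 / 2) ^ k)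
    (_ : (1 / 2) ^ k ≤ M * q) (_ : 0 ≤ t - (K + 1) * q) (_ : t + (K + 1) * q ≤ 1)
    (_ : ∀ y : ℝ, |y - t| ≤ (K + 1) * q → |s y - s₀ - b * (y - t)| ≤ ε * q)
    (_ : ∀ y y' : ℝ, |y - t| ≤ (K + 1) * q → |y' - t| ≤ (K + 1) * q → y ≤ y' → s y ≤ s y')
    (_ : |v₀ - t| ≤ K * q) (_ : ρ₀ ≤ 1) (_ : 0 ≤ e₀) (_ : 0 < μ) (_ : 8 * b * q ≤ μ),
    ∃ w o₁ : ℚ, t - (K + 1) * q ≤ w ∧ v₀ - q / 2 ≤ w ∧
      v₀ - 2 * ℓ * q ≤ w ∧ (w : ℝ) ≤ v₀ - ℓ * q ∧
      t + K * q ≤ o₁ ∧ (o₁ : ℝ) ≤ t + (K + 1) * q ∧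
      ∃ Ψ : Fml m, Ψ = AlF ((range (r₀ + 1)).image c) ((range r₀).image c) κ Kf e₀ ρ₀ π₀ w (s w)
        (s o₁) (φ * (o₁ - w) + 2 * e * (1 / 2) ^ k) ∧
      (∀ (J : ℕ) (F : Fam m J) (A B : F.Ω → Prop) (V : Type) (z : PtT F → V)
        (z' : LnT F → V) (G : V → MvPolynomial (Option (Fin m)) ℝ), Sub B A →
        Ψ J F A V z z' G → Ψ J F B V z z' G) ∧
      (∀ (J : ℕ) (F : Fam m J) (A : F.Ω → Prop) (V : Type) (z : PtT F → V) (z' : LnT F → V)
        (G : V → MvPolynomial (Option (Fin m)) ℝ), Ψ J F A V z z' G →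
        LbOK F ((range (r₀ + 1)).image c) κ Kf ⌊e₀ * J⌋₊ J ⌊(w : ℝ) * J⌋₊ ⌊ρ₀ * J⌋₊ ⌊π₀ * J⌋₊ A
          z z' G) ∧
      Bas S (fun J F A => ∃ (V : Type) (z : PtT F → V) (z' : LnT F → V)
        (G : V → MvPolynomial (Option (Fin m)) ℝ), Ψ J F A V z z' G) ∧
      -- the natural labels at all windows, and the data of all pairs
      (∀ {v puv Ev Euv uv : ℝ}, AlW S c r₀ κ D v (s v) puv Ev Euv uv → v₀ ≤ v →
        |v - t| ≤ K * q → μ ≤ s v → e₀ + s v + μ ≤ 1 → Ev + s v + μ ≤ 1 → uv + μ ≤ 1 →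
        π₀ < s v → s v + puv - π₀ < 1 →
        ∃ p₁ p₂ pN : ℝ, p₁ < s v ∧ p₂ < puv ∧ 0 ≤ pN ∧ pN < s v ∧ s v - δ * lam * q / 8 ≤ pN ∧
          NzO S Ψ c r₀ κ D D D w v p₁ p₂ (Ev + μ / 4) (uv + μ / 8) pN ∧
          ∀ {a pua Ea Eua ua lm rr n : ℝ}, AlW S c r₀ κ D a (s a) pua Ea Eua ua →
            |a - t| ≤ K * q → e₀ + s a + μ ≤ 1 → Ea + s a + μ ≤ 1 → ua + μ ≤ 1 →
            s a + pua - π₀ < 1 → lam ≤ lm → lm ≤ rr → (lm + g) * q ≤ b * (a - v) →
            (rr + g) * q ≤ b * (t + K * q - v) → (8 * b + 8 * rr) * q ≤ μ → 1 - μ / 2 ≤ n →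
            n ≤ 1 →
            AlpD S Ψ c r₀ κ D w v a (s v) (lm * q) (rr * q) n h (δ * (lm * q) / 4) p₁ p₂
              (Ev + μ / 4) (uv + μ / 8) pN) ∧
      -- the rows
      (∀ sa sb : ℝ, s v₀ ≤ sa → sa ≤ sb → sb + g * q ≤ s₀ + b * (K * q) →
        Bas S (fun J F A => ∀ (V : Type) (z : PtT F → V) (z' : LnT F → V)
        (G : V → MvPolynomial (Option (Fin m)) ℝ), Ψ J F A V z z' G →
        CH (Pool.Agent.H49.Ent.cond F.p A True) (xa F κ z' ⌊(w : ℝ) * J⌋₊ G sb)
          (ya F ((range r₀).image c) κ z' ⌊(w : ℝ) * J⌋₊ G sa) ≤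
          (φ / b * (sb - sa) + δ' * q) * J)) ∧
      -- the numbers
      (∀ j sb : ℝ, v₀ ≤ j → |j - t| ≤ K * q → sb + g * q ≤ s₀ + b * (K * q) →
        Bas S (fun J F A => ∀ (V : Type) (z : PtT F → V) (z' : LnT F → V)
        (G : V → MvPolynomial (Option (Fin m)) ℝ), Ψ J F A V z z' G →
        (φ / b * (sb - s j) - δ' * q) * J ≤ CH (Pool.Agent.H49.Ent.cond F.p A True)
          (xa F κ z' ⌊(w : ℝ) * J⌋₊ G sb)
          (fun ω => (ceI ((range r₀).image c) (fun _ => J) (F.x ω), (cR F A j ω, F.W ω))))) := by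
  obtain ⟨ℓ, hℓ⟩ : ∃ ℓ : ℝ, ℓ = min (min (δ * lam / (16 * b)) (δ' / (2 * b)))
    (min (g / (8 * b)) (min (1 / 4) ℓ₀)) := ⟨_, rfl⟩
  have hℓ0 : 0 < ℓ := by
    rw [hℓ]
    exact lt_min (lt_min (by positivity) (by positivity)) (lt_min (by positivity)
      (lt_min (by norm_num) hℓ₀))
  have l1 : 16 * (b * ℓ) ≤ δ * lam := by
    have : ℓ ≤ δ * lam / (16 * b) := by
      rw [hℓ]
      exact (min_le_left _ _).trans (min_le_left _ _)
    rw [le_div_iff₀ (by positivity)] at this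
    linarith
  have l0 : 2 * (b * ℓ) ≤ δ' := by
    have : ℓ ≤ δ' / (2 * b) := by
      rw [hℓ]
      exact (min_le_left _ _).trans (min_le_right _ _)
    rw [le_div_iff₀ (by positivity)] at this
    linarith
  have l2 : 8 * (b * ℓ) ≤ g := by
    have : ℓ ≤ g / (8 * b) := by rw [hℓ]; exact (min_le_right _ _).trans (min_le_left _ _)
    rw [le_div_iff₀ (by positivity)] at this
    linarith
  have l3 : ℓ ≤ 1 / 4 := by
    rw [hℓ]
    exact (min_le_right _ _).trans ((min_le_right _ _).trans (min_le_left _ _))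
  have l4 : ℓ ≤ ℓ₀ := by
    rw [hℓ]
    exact (min_le_right _ _).trans ((min_le_right _ _).trans (min_le_right _ _))
  refine ⟨ℓ, h * b * ℓ / 16, h * b * ℓ / (32 * M), hℓ0, l4, by positivity, by positivity, ?_⟩
  intro m S C₀ htm hpos c r₀ κ Kf hKf hinj e₀ ρ₀ π₀ s x φ e k hat K q t s₀ v₀ μ he0 he1 hφ0 hφ hq
    hk0 hk1 hkM ht0 ht1 hlin hmono hvK hρ₀ he₀ hμ hμq
  have hL : 1 / 2 < Real.log 2 := by
    have := Real.log_two_gt_d9
    linarith
  have hL1 : Real.log 2 < 1 := by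
    have := Real.log_two_lt_d9
    linarith
  -- products
  obtain ⟨X, hX⟩ : ∃ X : ℝ, X = b * ℓ * q := ⟨_, rfl⟩
  obtain ⟨Y, hY⟩ : ∃ Y : ℝ, Y = h * X := ⟨_, rfl⟩
  obtain ⟨τ, hτ⟩ : ∃ τ : ℝ, τ = h * ℓ * q / 8 := ⟨_, rfl⟩
  obtain ⟨lq, hlq⟩ : ∃ lq : ℝ, lq = ℓ * q := ⟨_, rfl⟩
  obtain ⟨Kq, hKq⟩ : ∃ Kq : ℝ, Kq = K * q := ⟨_, rfl⟩
  obtain ⟨ρ, hρ⟩ : ∃ ρ : ℝ, ρ = φ / b := ⟨_, rfl⟩
  have hρb : ρ * b = φ := by
    rw [hρ]
    field_simp
  have hρ0 : 0 ≤ ρ := by
    rw [hρ]
    positivity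
  have hρ1 : ρ ≤ 1 := by
    rw [hρ, div_le_one hb]
    have h1 : (1 - h) * b * Real.log 2 ≤ 1 * b * 1 := by
      refine mul_le_mul (mul_le_mul_of_nonneg_right (by linarith) hb.le) hL1.le (by linarith)
        (by linarith)
    linarith
  have hX0 : 0 < X := by rw [hX]; positivity
  have hY0 : 0 < Y := by rw [hY]; positivity
  have hYX : Y ≤ X := by
    rw [hY]
    have := mul_le_mul_of_nonneg_right hh1 hX0.le
    linarith
  have hτ0 : 0 < τ := by rw [hτ]; positivity
  have hlq0 : 0 < lq := by rw [hlq]; positivity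
  have hlqq : lq ≤ q / 4 := by
    rw [hlq]
    have := mul_le_mul_of_nonneg_right l3 hq.le
    linarith
  have hτl : τ ≤ lq / 8 := by
    rw [hτ, hlq]
    have := mul_le_mul_of_nonneg_right hh1 (show 0 ≤ ℓ * q / 8 by positivity)
    linarith
  have hbl : b * lq = X := by rw [hlq, hX]; ring
  have hbτ : b * τ = Y / 8 := by rw [hτ, hY, hX]; ring
  have hεq : h * b * ℓ / 16 * q = Y / 16 := by rw [hY, hX]; ring
  have hXδ : 16 * X ≤ δ * lam * q := by
    rw [hX]
    have := mul_le_mul_of_nonneg_right l1 hq.le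
    linarith
  have hXδ' : 2 * X ≤ δ' * q := by
    rw [hX]
    have := mul_le_mul_of_nonneg_right l0 hq.le
    linarith
  have hXg : 8 * X ≤ g * q := by
    rw [hX]
    have := mul_le_mul_of_nonneg_right l2 hq.le
    linarith
  have hXb : X ≤ b * q / 4 := by
    rw [hX]
    have := mul_le_mul_of_nonneg_right (mul_le_mul_of_nonneg_left l3 hb.le) hq.le
    linarith
  have hE : 4 * e * (1 / 2) ^ k ≤ Y / 8 := by
    have k1 : 4 * e * (1 / 2 : ℝ) ^ k ≤ 4 * (h * b * ℓ / (32 * M)) * (M * q) := by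
      refine mul_le_mul (by linarith) hkM (by positivity) (by positivity)
    have k2 : 4 * (h * b * ℓ / (32 * M)) * (M * q) = Y / 8 := by
      rw [hY, hX]
      field_simp
      norm_num
    linarith
  have hKq1 : (K + 1) * q = Kq + q := by rw [hKq]; ring
  rw [hKq1] at hk0 hk1 ht0 ht1 hlin hmono ⊢
  rw [← hKq, ← hρ]
  rw [← hKq] at hvK
  rw [hεq] at hlin
  obtain ⟨hvK1, hvK2⟩ := abs_le.1 hvK
  have hgq : 0 < g * q := by positivity
  have hbq : 0 < b * q := by positivity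
  have bm : ∀ {y y' : ℝ}, y ≤ y' → b * y ≤ b * y' := fun h => mul_le_mul_of_nonneg_left h hb.le
  -- the linear levels
  have lin : ∀ y : ℝ, -(Kq + q) ≤ y - t → y - t ≤ Kq + q →
      s₀ + b * (y - t) - Y / 16 ≤ s y ∧ s y ≤ s₀ + b * (y - t) + Y / 16 := by
    intro y y1 y2
    have := abs_le.1 (hlin y (abs_le.2 ⟨y1, y2⟩))
    obtain ⟨k1, k2⟩ := this
    constructor <;> linarith
  have mon : ∀ y y' : ℝ, -(Kq + q) ≤ y - t → y ≤ y' → y' - t ≤ Kq + q → s y ≤ s y' := by
    intro y y' y1 y2 y3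
    exact hmono y y' (abs_le.2 ⟨y1, by linarith⟩) (abs_le.2 ⟨by linarith, y3⟩) y2
  -- the windows of the family
  obtain ⟨w, w1, w2⟩ := exists_rat_btwn (show v₀ - lq - τ < v₀ - lq by linarith)
  obtain ⟨o₁, o1, o2⟩ := exists_rat_btwn (show t + (Kq + q) - τ < t + (Kq + q) by linarith)
  have ratle : ∀ {r r' : ℚ}, (r : ℝ) ≤ r' → r ≤ r' := fun h => by exact_mod_cast h
  have hw0 : (0 : ℚ) ≤ w := by
    have : (0 : ℝ) ≤ w := by linarith
    exact_mod_cast this
  have hex := rec_ex he0 hat (w := w) (o₁ := o₁) (by linarith) (ratle (by linarith))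
    (by linarith)
  obtain ⟨Ψ, hΨ⟩ : ∃ Ψ : Fml m, Ψ = AlF ((range (r₀ + 1)).image c) ((range r₀).image c) κ Kf e₀
      ρ₀ π₀ w (s w) (s o₁) (φ * (o₁ - w) + 2 * e * (1 / 2) ^ k) := ⟨_, rfl⟩
  -- the gap of a block
  have hgap : ∀ (y y' v : ℝ), v - lq - τ ≤ y → y ≤ v - lq → v ≤ y' → y' ≤ v + τ →
      -(Kq + q) ≤ y - t → -(Kq + q) ≤ v - t → v - t ≤ Kq + q →
      φ * (y' - y) + 4 * e * (1 / 2) ^ k < (s v - s y) * Real.log 2 := by
    intro y y' v y1 y2 y3 y4 y5 y6 y7
    obtain ⟨lv1, lv2⟩ := lin v y6 y7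
    obtain ⟨ly1, ly2⟩ := lin y y5 (by linarith)
    have bv : b * (v - t) = b * (v - y) + b * (y - t) := by ring
    have by1 : X ≤ b * (v - y) := by
      rw [← hbl]
      exact bm (by linarith)
    have k1 : φ * (y' - y) ≤ φ * ((v - y) + τ) := mul_le_mul_of_nonneg_left (by linarith) hφ0
    have k2 := gap_num (E := 4 * e * (1 / 2) ^ k) (D := s v - s y) hh hh1 hL hL1 hX0 hY hφ by1
      hbτ (by linarith) hE (by linarith)
    linarith
  refine ⟨w, o₁, by linarith, by linarith, by linarith, by linarith,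
    by linarith, by linarith, Ψ, hΨ, ?_, ?_, ?_, ?_, ?_, ?_⟩
  · intro J F A B V z z' G hB hG
    rw [hΨ] at hG ⊢
    exact AlF.hs J F A B V z z' G hB hG
  · intro J F A V z z' G hG
    rw [hΨ] at hG
    exact AlF.hl J F A V z z' G hG
  · rw [hΨ]
    exact hex
  · -- the natural labels
    intro v puv Ev Euv uv hv hvv hvK' hμs m0 m2 m4 hπv hrv
    have hnz : ∀ {v puv Ev Euv uv : ℝ}, AlW S c r₀ κ D v (s v) puv Ev Euv uv → v₀ ≤ v →
        |v - t| ≤ Kq → e₀ + s v + μ ≤ 1 → Ev + s v + μ ≤ 1 → uv + μ ≤ 1 →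
        π₀ < s v → s v + puv - π₀ < 1 → μ ≤ s v →
        ∃ (y : ℚ) (p₁ p₂ : ℝ), v - lq - τ ≤ y ∧ (y : ℝ) ≤ v - lq ∧ s v - X - Y / 4 ≤ s y ∧
          s y ≤ s v - X + Y / 4 ∧
          p₁ < s v ∧ p₂ < puv ∧
          NzO S Ψ c r₀ κ D D D w v p₁ p₂ (Ev + μ / 4) (uv + μ / 8) (s y - Y / 8) := by
      intro v puv Ev Euv uv hv hvv hvK' m0 m2 m4 hπv hrv hμs
      obtain ⟨hvK1', hvK2'⟩ := abs_le.1 hvK'
      obtain ⟨y₀, y1, y2⟩ := exists_rat_btwn (show v - lq - τ < v - lq by linarith)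
      obtain ⟨y', y1', y2'⟩ := exists_rat_btwn (show v < v + τ by linarith)
      obtain ⟨y, hy⟩ : ∃ y : ℚ, y = max w y₀ := ⟨_, rfl⟩
      have hyr : (y : ℝ) = max (w : ℝ) (y₀ : ℝ) := by
        rw [hy]
        push_cast
        rfl
      have hy1 : v - lq - τ ≤ y := by
        rw [hyr]
        exact y1.le.trans (le_max_right _ _)
      have hy2 : (y : ℝ) ≤ v - lq := by
        rw [hyr]
        exact max_le (by linarith) y2.le
      have hwy : w ≤ y := by
        rw [hy]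
        exact le_max_left _ _
      have hwy' : (w : ℝ) ≤ y := by exact_mod_cast hwy
      obtain ⟨lv1, lv2⟩ := lin v (by linarith) (by linarith)
      obtain ⟨ly1, ly2⟩ := lin y (by linarith) (by linarith)
      have bv : b * (v - t) = b * (v - y) + b * (y - t) := by ring
      have bw1 : X ≤ b * (v - y) := by
        rw [← hbl]
        exact bm (by linarith)
      have bw2 : b * (v - y) ≤ X + Y / 8 := by
        have := bm (show v - y ≤ lq + τ by linarith)
        rw [mul_add, hbl, hbτ] at this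
        exact this
      have hvE0 := hv.E0
      have hvu := hv.wu
      obtain ⟨p₁, p₂, hp₁, hp₂, hNv⟩ := nzo_win htm hpos hKf hinj hv hat (w := w) (o := y)
        (o' := y') (o₁ := o₁) (by linarith) hwy (ratle (by linarith)) (ratle (by linarith))
        (by linarith) (by linarith) (mon w y (by linarith) hwy' (by linarith))
        (mon y y' (by linarith) (by linarith) (by linarith))
        (mon y' o₁ (by linarith) (by linarith) (by linarith)) hw0 (by linarith) hρ₀ he₀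
        (by linarith) hπv hrv (by linarith) (mon v y' (by linarith) y1'.le (by linarith))
        (hgap y y' v hy1 hy2 y1'.le y2'.le (by linarith) (by linarith) (by linarith))
        (uN := uv + μ / 8) (pN := s y - Y / 8) (eN := Ev + μ / 4)
        (by linarith) (by linarith) (by linarith) (by linarith) (by linarith)
        (by linarith [hv.pE])
      rw [← hΨ] at hNv
      exact ⟨y, p₁, p₂, hy1, hy2, by linarith, by linarith, hp₁, hp₂, hNv⟩
    obtain ⟨y, p₁, p₂, hy1, hy2, ys1, ys2, hp₁, hp₂, hNv⟩ := hnz hv hvv hvK' m0 m2 m4 hπv hrv hμs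
    have hμb : 8 * (b * q) ≤ μ := by
      have e1 : 8 * (b * q) = 8 * b * q := by ring
      rw [e1]
      exact hμq
    refine ⟨p₁, p₂, s y - Y / 8, hp₁, hp₂, by linarith, by linarith, by linarith, hNv, ?_⟩
    intro a pua Ea Eua ua lm rr n ha haK m1 m3 m5 hra hlm hrr hva hvr hμr hn1 hn2
    obtain ⟨hvK1', hvK2'⟩ := abs_le.1 hvK'
    obtain ⟨haK1, haK2⟩ := abs_le.1 haK
    have hva' : lm * q + g * q ≤ b * (a - v) := by
      have e1 : lm * q + g * q = (lm + g) * q := by ring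
      rw [e1]
      exact hva
    have hlq1 : 0 < lm * q := mul_pos (by linarith) hq
    have hlr : lm * q ≤ rr * q := mul_le_mul_of_nonneg_right hrr hq.le
    have hllm : δ * lam * q ≤ δ * (lm * q) := by
      have := mul_le_mul_of_nonneg_left (mul_le_mul_of_nonneg_right hlm hq.le) hδ.le
      linarith
    have hμ1 : 8 * (b * q) + 8 * (rr * q) ≤ μ := by
      have e1 : 8 * (b * q) + 8 * (rr * q) = (8 * b + 8 * rr) * q := by ring
      rw [e1]
      exact hμr
    have hvr' : rr * q + g * q ≤ b * (t + Kq - v) := by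
      have e1 : rr * q + g * q = (rr + g) * q := by ring
      rw [e1]
      exact hvr
    have hvaτ : v + 8 * τ ≤ a := by
      by_contra hcon
      push Not at hcon
      have k1 := bm (show a - v ≤ 8 * τ by linarith)
      have e1 : b * (8 * τ) = Y := by
        have : b * (8 * τ) = 8 * (b * τ) := by ring
        rw [this, hbτ]
        ring
      linarith
    obtain ⟨lv1, lv2⟩ := lin v (by linarith) (by linarith)
    obtain ⟨la1, la2⟩ := lin a (by linarith) (by linarith)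
    have bva : b * (a - t) = b * (a - v) + b * (v - t) := by ring
    have hsva : s v ≤ s a := mon v a (by linarith) (by linarith) (by linarith)
    obtain ⟨ya, pa₁, pa₂, hya1, hya2, yas1, yas2, hpa₁, hpa₂, hNa⟩ := hnz ha (by linarith) haK m1
      m3 m5 (by linarith) hra (by linarith)
    have hvE := hv.pE
    have haE := ha.pE
    have hvE0 := hv.E0
    have haE0 := ha.E0
    have hvu := hv.wu
    have hau := ha.wu
    have hav0 := hv.w0
    refine { hs := fun J F A B V z z' G hB hG => by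
               rw [hΨ] at hG ⊢
               exact AlF.hs J F A B V z z' G hB hG
             lb := ⟨e₀, ρ₀, π₀, he₀, hρ₀, by linarith, fun J F A V z z' G hG => by
               rw [hΨ] at hG
               exact (AlF.hl J F A V z z' G hG).mono (Finset.Subset.refl _) hKf le_rfl le_rfl
                 le_rfl⟩
             top := ⟨pa₁, pa₂, Ea + μ / 4, ua + μ / 8, s ya - Y / 8, by linarith, by linarith,
               by linarith, by linarith, hNa, ha.ch1 hpa₁, ha.ch2 hpa₂⟩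
             ful := ful_up hpos ha.fI0 (by linarith) hn2
             v0 := hav0
             wv := by linarith
             va := by linarith
             a1 := by linarith
             n1 := hn2
             eN0 := by linarith
             pN0 := by linarith
             peN := by linarith
             qr := hlr
             uNn := by linarith
             vq := by linarith
             q0 := hlq1
             pNp := by linarith
             acc := by linarith
             row := fun sa sb r1 r2 r3 => ?_ }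
    -- the rows
    obtain ⟨z, hz⟩ : ∃ z : ℝ, z = t + (sa - Y / 16 - s₀) / b := ⟨_, rfl⟩
    obtain ⟨z', hz'⟩ : ∃ z' : ℝ, z' = t + (sb + Y / 16 - s₀) / b := ⟨_, rfl⟩
    have bz : b * (z - t) = sa - Y / 16 - s₀ := by
      rw [hz, add_sub_cancel_left, mul_div_cancel₀ _ hb.ne']
    have bz' : b * (z' - t) = sb + Y / 16 - s₀ := by
      rw [hz', add_sub_cancel_left, mul_div_cancel₀ _ hb.ne']
    have hzz : z ≤ z' := by
      by_contra hcon
      push Not at hcon
      have := mul_lt_mul_of_pos_left (show z' - t < z - t by linarith) hb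
      linarith
    have hvz : v - lq ≤ z - τ := by
      by_contra hcon
      push Not at hcon
      have k1 := mul_lt_mul_of_pos_left (show z - t < v - t - lq + τ by linarith) hb
      have e1 : b * (v - t - lq + τ) = b * (v - t) - b * lq + b * τ := by ring
      rw [e1, hbl, hbτ, bz] at k1
      linarith
    have hza : z' ≤ t + Kq := by
      by_contra hcon
      push Not at hcon
      have k1 := mul_lt_mul_of_pos_left (show t + Kq - t < z' - t by linarith) hb
      have e1 : b * (t + Kq - t) = b * (t + Kq - v) + b * (v - t) := by ring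
      rw [bz', e1] at k1
      linarith
    obtain ⟨u₂, u1, u2⟩ := exists_rat_btwn (show z - τ < z by linarith)
    obtain ⟨u₃, u3, u4⟩ := exists_rat_btwn (show z' < z' + τ by linarith)
    obtain ⟨lu1, lu2⟩ := lin u₂ (by linarith) (by linarith)
    obtain ⟨lu3, lu4⟩ := lin u₃ (by linarith) (by linarith)
    have bu2 := bm (show (u₂ : ℝ) - t ≤ z - t by linarith)
    have bu3 := bm (show z' - t ≤ (u₃ : ℝ) - t by linarith)
    have hu23 : u₂ ≤ u₃ := ratle (by linarith)
    have hwu : w ≤ u₂ := ratle (by linarith)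
    have hrow := rec_rowl hpos hat (w := w) (o := u₂) (o' := u₃) (o₁ := o₁) (by linarith) hwu hu23
      (ratle (by linarith)) (by linarith) (by linarith) (mon w u₂ (by linarith) (by linarith)
      (by linarith)) (mon u₂ u₃ (by linarith) (by linarith) (by linarith))
      (mon u₃ o₁ (by linarith) (by linarith) (by linarith))
      (d := (1 - h) * (sb - sa) * Real.log 2 + δ * (lm * q) / 4) ?_ (sa := sa) (sb := sb)
      (by linarith) (by linarith)
    · rw [← hΨ] at hrow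
      exact hrow
    refine row_num (b := b) (hX := Y) (τ := τ) hh1 hh (by linarith) hL1 hY0.le hφ (by linarith) hb
      ?_ hbτ hE (by linarith)
    have k1 := bm (show (u₃ : ℝ) - u₂ ≤ (z' - t) - (z - t) + 2 * τ by linarith)
    have e1 : b * ((z' - t) - (z - t) + 2 * τ) = b * (z' - t) - b * (z - t) + 2 * (b * τ) := by
      ring
    rw [e1, bz, bz'] at k1
    linarith
  · -- the rows with the rate
    intro sa sb r1 r2 r3
    obtain ⟨lv1, lv2⟩ := lin v₀ (by linarith) (by linarith)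
    obtain ⟨z, hz⟩ : ∃ z : ℝ, z = t + (sa - Y / 16 - s₀) / b := ⟨_, rfl⟩
    obtain ⟨z', hz'⟩ : ∃ z' : ℝ, z' = t + (sb + Y / 16 - s₀) / b := ⟨_, rfl⟩
    have bz : b * (z - t) = sa - Y / 16 - s₀ := by
      rw [hz, add_sub_cancel_left, mul_div_cancel₀ _ hb.ne']
    have bz' : b * (z' - t) = sb + Y / 16 - s₀ := by
      rw [hz', add_sub_cancel_left, mul_div_cancel₀ _ hb.ne']
    have hzz : z ≤ z' := by
      by_contra hcon
      push Not at hcon
      have := mul_lt_mul_of_pos_left (show z' - t < z - t by linarith) hb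
      linarith
    have hvz : v₀ - lq ≤ z - τ := by
      by_contra hcon
      push Not at hcon
      have k1 := mul_lt_mul_of_pos_left (show z - t < v₀ - t - lq + τ by linarith) hb
      have e1 : b * (v₀ - t - lq + τ) = b * (v₀ - t) - b * lq + b * τ := by ring
      rw [e1, hbl, hbτ, bz] at k1
      linarith
    have hza : z' ≤ t + Kq := by
      by_contra hcon
      push Not at hcon
      have k1 := mul_lt_mul_of_pos_left (show t + Kq - t < z' - t by linarith) hb
      have e1 : b * (t + Kq - t) = b * Kq := by ring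
      rw [bz', e1] at k1
      linarith
    obtain ⟨u₂, u1, u2⟩ := exists_rat_btwn (show z - τ < z by linarith)
    obtain ⟨u₃, u3, u4⟩ := exists_rat_btwn (show z' < z' + τ by linarith)
    obtain ⟨lu1, lu2⟩ := lin u₂ (by linarith) (by linarith)
    obtain ⟨lu3, lu4⟩ := lin u₃ (by linarith) (by linarith)
    have bu2 := bm (show (u₂ : ℝ) - t ≤ z - t by linarith)
    have bu3 := bm (show z' - t ≤ (u₃ : ℝ) - t by linarith)
    have hu23 : u₂ ≤ u₃ := ratle (by linarith)
    have hwu : w ≤ u₂ := ratle (by linarith)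
    have hrow := rec_rowl hpos hat (w := w) (o := u₂) (o' := u₃) (o₁ := o₁) (by linarith) hwu hu23
      (ratle (by linarith)) (by linarith) (by linarith) (mon w u₂ (by linarith) (by linarith)
      (by linarith)) (mon u₂ u₃ (by linarith) (by linarith) (by linarith))
      (mon u₃ o₁ (by linarith) (by linarith) (by linarith))
      (d := ρ * (sb - sa) + δ' * q) ?_ (sa := sa) (sb := sb)
      (by linarith) (by linarith)
    · rw [← hΨ] at hrow
      exact hrow
    have k1 : ρ * (b * ((u₃ : ℝ) - u₂)) ≤ ρ * (sb - sa + 3 * (Y / 8)) := by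
      refine mul_le_mul_of_nonneg_left ?_ hρ0
      have k2 := bm (show (u₃ : ℝ) - u₂ ≤ (z' - t) - (z - t) + 2 * τ by linarith)
      have e1 : b * ((z' - t) - (z - t) + 2 * τ) = b * (z' - t) - b * (z - t) + 2 * (b * τ) := by
        ring
      rw [e1, bz, bz'] at k2
      linarith
    have k3 : ρ * (3 * (Y / 8)) ≤ 1 * (3 * (Y / 8)) :=
      mul_le_mul_of_nonneg_right hρ1 (by positivity)
    have e2 : φ * ((u₃ : ℝ) - u₂) = ρ * (b * ((u₃ : ℝ) - u₂)) := by rw [← hρb]; ring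
    rw [e2]
    rw [mul_add] at k1
    linarith
  · -- the numbers
    intro j sb r1 r2 r3
    obtain ⟨hjK1, hjK2⟩ := abs_le.1 r2
    obtain ⟨lj1, lj2⟩ := lin j (by linarith) (by linarith)
    obtain ⟨z, hz⟩ : ∃ z : ℝ, z = t + (sb - Y / 16 - s₀) / b := ⟨_, rfl⟩
    have bz : b * (z - t) = sb - Y / 16 - s₀ := by
      rw [hz, add_sub_cancel_left, mul_div_cancel₀ _ hb.ne']
    have hza : z ≤ t + Kq := by
      by_contra hcon
      push Not at hcon
      have k1 := mul_lt_mul_of_pos_left (show t + Kq - t < z - t by linarith) hb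
      have e1 : b * (t + Kq - t) = b * Kq := by ring
      rw [bz, e1] at k1
      linarith
    obtain ⟨j', j1, j2⟩ := exists_rat_btwn (show j < j + τ by linarith)
    obtain ⟨o', q1, q2⟩ := exists_rat_btwn (show z - τ < z by linarith)
    by_cases hjo : j' ≤ o'
    · have hjo' : (j' : ℝ) ≤ o' := by exact_mod_cast hjo
      obtain ⟨θ, hθ, hθe⟩ := hat j' o' (by linarith) hjo (by linarith)
      obtain ⟨lo1, lo2⟩ := lin o' (by linarith) (by linarith)
      have bo := bm (show (o' : ℝ) - t ≤ z - t by linarith)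
      have hso : s o' ≤ sb := by linarith
      obtain ⟨J₁, hJ₁⟩ := exists_nat_ge (Real.log 5 / (Y / 16))
      refine Bas.mono J₁ ((psi_low hpos hθ (w := w) (j := j) (by linarith) (by linarith)
        (by linarith) (Y / 16) (by positivity)).and (pos_bas hpos)) ?_
      rintro J hJ F A ⟨H, hA⟩ V zz z' G hG
      have hcl := isLaw_cond F.isLaw hA
      have hJ0 : (0 : ℝ) ≤ J := Nat.cast_nonneg J
      have h1 := H V zz z' G (by
        rw [hΨ] at hG
        exact AlF.hl J F A V zz z' G hG)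
      have h2 := CH_le_add hcl.nonneg (xa F κ z' ⌊(w : ℝ) * J⌋₊ G (s o'))
        (xa F κ z' ⌊(w : ℝ) * J⌋₊ G sb)
        (fun ω => (ceI ((range r₀).image c) (fun _ => J) (F.x ω), (cR F A j ω, F.W ω)))
      have h3 : CH (Pool.Agent.H49.Ent.cond F.p A True) (xa F κ z' ⌊(w : ℝ) * J⌋₊ G (s o'))
          (fun ω => (xa F κ z' ⌊(w : ℝ) * J⌋₊ G sb ω,
            (ceI ((range r₀).image c) (fun _ => J) (F.x ω), (cR F A j ω, F.W ω)))) ≤
          Real.log 5 :=
        fl_few hcl _ (Real.rpow_pos_of_pos (by norm_num) _).le (p2_mono hso) _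
          fun ω ω' _ _ e => (Prod.ext_iff.mp e).1
      have h4 : Real.log 5 ≤ Y / 16 * J := by
        have e1 : (J₁ : ℝ) ≤ J := by exact_mod_cast hJ
        have e2 := hJ₁.trans e1
        rw [div_le_iff₀ (by positivity)] at e2
        linarith
      have k1 : ρ * (sb - s j - 3 * (Y / 8)) ≤ ρ * (b * ((o' : ℝ) - j')) := by
        refine mul_le_mul_of_nonneg_left ?_ hρ0
        have k2 := bm (show (z - t) - (j - t) - 2 * τ ≤ (o' : ℝ) - j' by linarith)
        have e1 : b * ((z - t) - (j - t) - 2 * τ) = b * (z - t) - b * (j - t) - 2 * (b * τ) := by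
          ring
        rw [e1, bz, hbτ] at k2
        linarith
      have k3 : ρ * (3 * (Y / 8)) ≤ 1 * (3 * (Y / 8)) :=
        mul_le_mul_of_nonneg_right hρ1 (by positivity)
      have e2 : φ * ((o' : ℝ) - j') = ρ * (b * ((o' : ℝ) - j')) := by rw [← hρb]; ring
      have k4 := (abs_le.1 hθe).1
      rw [e2] at k4
      have e3 : ρ * (sb - s j - 3 * (Y / 8)) = ρ * (sb - s j) - ρ * (3 * (Y / 8)) := by ring
      rw [e3] at k1
      have k5 : ρ * (sb - s j) - δ' * q + Y / 16 ≤ θ - Y / 16 := by linarith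
      have k6 := mul_le_mul_of_nonneg_right k5 hJ0
      have e4 : (ρ * (sb - s j) - δ' * q + Y / 16) * J =
        (ρ * (sb - s j) - δ' * q) * J + Y / 16 * J := by ring
      rw [e4] at k6
      linarith
    · have hjo' : (o' : ℝ) < j' := by
        push Not at hjo
        exact_mod_cast hjo
      refine Bas.mono 0 (pos_bas hpos) ?_
      intro J _ F A hA V z' z'' G _
      have hcl := isLaw_cond F.isLaw hA
      refine le_trans ?_ (CH_nonneg hcl.nonneg _ _)
      refine mul_nonpos_of_nonpos_of_nonneg ?_ (Nat.cast_nonneg J)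
      have k1 := bm (show z - t ≤ (j - t) + 2 * τ by linarith)
      have e1 : b * ((j - t) + 2 * τ) = b * (j - t) + 2 * (b * τ) := by ring
      rw [e1, bz, hbτ] at k1
      have k2 : ρ * (sb - s j) ≤ ρ * (3 * (Y / 8)) := mul_le_mul_of_nonneg_left (by linarith) hρ0
      have k3 : ρ * (3 * (Y / 8)) ≤ 1 * (3 * (Y / 8)) :=
        mul_le_mul_of_nonneg_right hρ1 (by positivity)
      linarith

end Pool.V0N
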